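import Pool.Agent.H63.PK.Targets
import Pool.Agent.H49.LNT.WSC
import Pool.Agent.H99.LNT.FGC

/-!
# Primitive weight systems and Lin's question (`MP_559314_gt`): assembly
-/

set_option autoImplicit false

open Finset

namespace Pool.Agent.H63.PK

open Pool.Agent.H59.LIN Pool.Agent.H13.LN

/-- All parts of the theorem, see the page `H63_PW.md`. -/
def Main : Prop :=
  -- the algebra is the usual one: the linear forms of degree `d` are the weight systems
  (∀ (R : Type) [CommRing R] (M : Type) [AddCommGroup M] [Module R M] (d : ℕ) (W : List ℕ → M),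
    WS d W → ∃ F : Alg R →ₗ[R] M, ∀ (e : ℕ) (l : GW e), F (cls R l) = if e = d then W l.1 else 0) ∧
  -- over a field it is a polynomial algebra
  (∀ (k : Type) [Field k], IsPoly k) ∧
  -- torsion of diagrams, torsion of indecomposables, lifting of primitive weight systems
  (∀ p : ℕ, p.Prime → ∀ n : ℕ, List.TFAE [
    ∀ d ≤ n, ∀ x : Chd d, p • x = 0 → x = 0,
    ∀ d ≤ n, ∀ x : Ind d, p • x = 0 → x = 0,
    ∀ d ≤ n, LiftP p d]) ∧
  -- realization: from primitive weight systems to all weight systems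
  (∀ p : ℕ, p.Prime → ∀ n : ℕ, (∀ d ≤ n, LiftPI p d) → ∀ d ≤ n, LiftI p d) ∧
  (∀ n : ℕ, (∀ p : ℕ, p.Prime → ∀ d ≤ n, LiftPI p d) → ∀ (R : Type) [CommRing R], ∀ d ≤ n,
    ∀ W : List ℕ → R, WS d W → Indu d W) ∧
  -- the question
  (∀ P : Set ℕ, (∀ p ∈ P, p.Prime) →
    ((∀ (R : Type) [CommRing R], (∀ q : ℕ, q.Prime → q ∉ P → IsUnit (q : R)) → Yes R) ↔
      Yes ℚ ∧ ∀ p ∈ P, ∀ d, LiftP p d)) ∧
  List.TFAE [
    ∀ (R : Type) [CommRing R], Yes R,
    ∀ p : ℕ, p.Prime → ∀ d, LiftPI p d,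
    Yes ℚ ∧ IsPoly ℤ]

/-- homomorphisms on a quotient of the free group are determined by the generators -/
theorem hom_ext' {d : ℕ} {B : Type} [AddCommGroup B] (N : AddSubgroup (GW d →₀ ℤ))
    (f g : (GW d →₀ ℤ) ⧸ N →+ B)
    (h : ∀ l : GW d, f (QuotientAddGroup.mk (Finsupp.single l 1)) =
      g (QuotientAddGroup.mk (Finsupp.single l 1))) : f = g := by
  refine QuotientAddGroup.addMonoidHom_ext N ?_
  refine Finsupp.addHom_ext' fun l => ?_
  refine AddMonoidHom.ext_int ?_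
  exact h l

/-- torsion of the indecomposables and lifting of primitive weight systems -/
theorem ind_lift (hHMG : T_HMG) (hTFL : T_TFL) (p : ℕ) (hp : p.Prime) (d : ℕ) :
    (∀ x : Ind d, p • x = 0 → x = 0) ↔ LiftP p d := by
  constructor
  · intro h W hW
    obtain ⟨φ, hφ⟩ := ((hHMG d).2 (ZMod p)).1 W hW
    obtain ⟨g, hg⟩ := (hTFL (Ind d) (hHMG d).1 p hp).1 h φ
    obtain ⟨W', h1, h2⟩ := ((hHMG d).2 ℤ).2 g
    refine ⟨W', h1, fun l hl => ?_⟩
    rw [← h2 ⟨l, hl⟩, hg, hφ ⟨l, hl⟩]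
  · intro h
    refine (hTFL (Ind d) (hHMG d).1 p hp).2 ℤ (Int.castAddHom (ZMod p)) ?_ ?_
    · intro b hb
      rw [nsmul_eq_mul] at hb
      exact (mul_eq_zero.1 hb).resolve_left (Nat.cast_ne_zero.2 hp.ne_zero)
    · intro f
      obtain ⟨W, h1, h2⟩ := ((hHMG d).2 (ZMod p)).2 f
      obtain ⟨W', h3, h4⟩ := h W h1
      obtain ⟨g, hg⟩ := ((hHMG d).2 ℤ).1 W' h3
      refine ⟨g, fun a => ?_⟩
      have h5 : (Int.castAddHom (ZMod p)).comp g = f := by
        refine hom_ext' _ _ _ fun l => ?_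
        rw [AddMonoidHom.comp_apply, hg l, h2 l]
        exact h4 l.1 l.2
      exact DFunLike.congr_fun h5 a

/-- torsion of the chord diagrams and lifting of weight systems -/
theorem chd_lift (hTFL : T_TFL) (p : ℕ) (hp : p.Prime) (d : ℕ) :
    (∀ x : Chd d, p • x = 0 → x = 0) ↔ LiftW p d := by
  have hFG : AddGroup.FG (Chd d) := H99.LNT.fgc d
  constructor
  · intro h W hW
    obtain ⟨φ, hφ⟩ := (H49.LNT.wsc d (ZMod p)).1 W hW
    obtain ⟨g, hg⟩ := (hTFL (Chd d) hFG p hp).1 h φ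
    obtain ⟨W', h1, h2⟩ := (H49.LNT.wsc d ℤ).2 g
    refine ⟨W', h1, fun l hl => ?_⟩
    rw [← h2 ⟨l, hl⟩, hg, hφ ⟨l, hl⟩]
  · intro h
    refine (hTFL (Chd d) hFG p hp).2 ℤ (Int.castAddHom (ZMod p)) ?_ ?_
    · intro b hb
      rw [nsmul_eq_mul] at hb
      exact (mul_eq_zero.1 hb).resolve_left (Nat.cast_ne_zero.2 hp.ne_zero)
    · intro f
      obtain ⟨W, h1, h2⟩ := (H49.LNT.wsc d (ZMod p)).2 f
      obtain ⟨W', h3, h4⟩ := h W h1
      obtain ⟨g, hg⟩ := (H49.LNT.wsc d ℤ).1 W' h3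
      refine ⟨g, fun a => ?_⟩
      have h5 : (Int.castAddHom (ZMod p)).comp g = f := by
        refine hom_ext' _ _ _ fun l => ?_
        rw [AddMonoidHom.comp_apply, hg l, h2 l]
        exact h4 l.1 l.2
      exact DFunLike.congr_fun h5 a

/-- a polynomial algebra over `ℤ` has no torsion -/
theorem poly_tf (h : IsPoly ℤ) (p : ℕ) (hp : p.Prime) (x : Alg ℤ) (hx : p • x = 0) : x = 0 := by
  obtain ⟨r, Φ, -⟩ := h
  have h1 : p • Φ.symm x = 0 := by
    rw [← map_nsmul, hx, map_zero]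
  have h2 : Φ.symm x = 0 := by
    ext m
    have h3 := congrArg (MvPolynomial.coeff m) h1
    rw [MvPolynomial.coeff_zero] at h3
    rw [MvPolynomial.coeff_zero]
    have h4 : MvPolynomial.coeff m (p • Φ.symm x) = (p : ℤ) * MvPolynomial.coeff m (Φ.symm x) := by
      rw [← nsmul_eq_mul]
      exact map_nsmul (MvPolynomial.coeffAddMonoidHom m) p (Φ.symm x)
    rw [h4] at h3
    exact (mul_eq_zero.1 h3).resolve_left (Nat.cast_ne_zero.2 hp.ne_zero)
  rw [← Φ.apply_symm_apply x, h2, map_zero]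

open Classical in
/-- the chord diagrams inject into the algebra -/
theorem chd_tf (hALG : T_ALG) (hFUN : T_FUN) (h : IsPoly ℤ) (p : ℕ) (hp : p.Prime) (d : ℕ)
    (x : Chd d) (hx : p • x = 0) : x = 0 := by
  -- the map to the algebra
  have hj : ∃ j : Chd d →+ Alg ℤ, ∀ l : GW d,
      j (QuotientAddGroup.mk (Finsupp.single l 1)) = cls ℤ l := by
    refine ⟨QuotientAddGroup.lift _ (Finsupp.liftAddHom fun l : GW d =>
      zmultiplesHom (Alg ℤ) (cls ℤ l)) ?_, fun l => ?_⟩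
    · intro y hy
      rw [AddMonoidHom.mem_ker]
      induction hy using AddSubgroup.closure_induction with
      | mem y hy =>
        have h1 := (hALG ℤ).2.1 d y hy
        rw [Finsupp.liftAddHom_apply]
        rw [← h1]
        refine Finsupp.sum_congr fun l _ => ?_
        rw [zmultiplesHom_apply, Int.cast_id]
      | zero => rw [map_zero]
      | add y z _ _ h1 h2 => rw [map_add, h1, h2, add_zero]
      | neg y _ h1 => rw [map_neg, h1, neg_zero]
    · rw [QuotientAddGroup.lift_mk, Finsupp.liftAddHom_apply_single, zmultiplesHom_apply, one_smul]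
  obtain ⟨j, hj⟩ := hj
  -- the map back
  obtain ⟨W, hW, hW2⟩ := (H49.LNT.wsc d (Chd d)).2 (AddMonoidHom.id (Chd d))
  obtain ⟨F, hF⟩ := hFUN ℤ (Chd d) d W hW
  have h1 : F.toAddMonoidHom.comp j = AddMonoidHom.id (Chd d) := by
    refine hom_ext' _ _ _ fun l => ?_
    rw [AddMonoidHom.comp_apply, hj l, hW2 l]
    change F (cls ℤ l) = W l.1
    rw [hF d l, if_pos rfl]
  have h2 : j x = 0 := by
    refine poly_tf h p hp _ ?_
    rw [← map_nsmul, hx, map_zero]
  have h3 := DFunLike.congr_fun h1 x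
  rw [AddMonoidHom.comp_apply, h2, map_zero] at h3
  exact h3.symm

theorem asm
    (hFIN : ∀ (P : Set ℕ), (∀ p ∈ P, p.Prime) → List.TFAE [
      ∀ (R : Type) [CommRing R], (∀ q : ℕ, q.Prime → q ∉ P → IsUnit (q : R)) → Yes R,
      Yes ℚ ∧ ∀ p ∈ P, Yes (ZMod p),
      Yes ℚ ∧ ∀ (d : ℕ) (x : Chd d), ∀ p ∈ P, p • x = 0 → x = 0])
    (hALG : T_ALG) (hFUN : T_FUN) (hPOL : T_POL) (hHMG : T_HMG) (hBSF : T_BSF) (hBSR : T_BSR)
    (hTFL : T_TFL) (hLFW : T_LFW) (hTWB : T_TWB) (hBIG : T_BIG) : Main := by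
  have hI := ind_lift hHMG hTFL
  have hC := chd_lift hTFL
  have hT : ∀ p : ℕ, p.Prime → ∀ n : ℕ, List.TFAE [
    ∀ d ≤ n, ∀ x : Chd d, p • x = 0 → x = 0,
    ∀ d ≤ n, ∀ x : Ind d, p • x = 0 → x = 0,
    ∀ d ≤ n, LiftP p d] := by
    intro p hp n
    tfae_have 1 → 2 := by
      intro h d
      induction d using Nat.strong_induction_on with
      | _ d ih =>
        intro hd
        exact hTWB p hp d (fun e he => ih e he (by omega)) ((hC p hp d).1 (h d hd))
    tfae_have 2 → 3 := fun h d hd => (hI p hp d).1 (h d hd)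
    tfae_have 3 → 1 := fun h d hd => (hC p hp d).2 ((hLFW p hp n).1 h d hd)
    tfae_finish
  have hB : ∀ n : ℕ, (∀ p : ℕ, p.Prime → ∀ d ≤ n, LiftPI p d) → ∀ (R : Type) [CommRing R],
      ∀ d ≤ n, ∀ W : List ℕ → R, WS d W → Indu d W := by
    intro n h R _ d hd W hW
    exact hBIG d (fun p hp => (hLFW p hp n).2 (h p hp) d hd) R W hW
  have hQ : ∀ P : Set ℕ, (∀ p ∈ P, p.Prime) →
    ((∀ (R : Type) [CommRing R], (∀ q : ℕ, q.Prime → q ∉ P → IsUnit (q : R)) → Yes R) ↔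
      Yes ℚ ∧ ∀ p ∈ P, ∀ d, LiftP p d) := by
    intro P hP
    have h0 := (hFIN P hP).out 0 2
    refine Iff.trans h0 (and_congr_right fun _ => ⟨fun h p hp d => ?_, fun h d x p hp => ?_⟩)
    · have h9 := (hT p (hP p hp) d).out 0 2
      exact h9.1 (fun e _ x => h e x p hp) d le_rfl
    · have h9 := (hT p (hP p hp) d).out 0 2
      exact h9.2 (fun e _ => h p hp e) d le_rfl x
  refine ⟨fun R _ M _ _ d W hW => hFUN R M d W hW, fun k _ => hPOL k (hBSF k), hT,
    fun p hp n => (hLFW p hp n).2, hB, hQ, ?_⟩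
  have hall : (∀ (R : Type) [CommRing R], Yes R) ↔
      Yes ℚ ∧ ∀ p : ℕ, p.Prime → ∀ d, LiftP p d := by
    have h1 := hQ {p | p.Prime} fun p hp => hp
    constructor
    · intro h
      exact h1.1 fun R _ _ => h R
    · intro h R _
      exact h1.2 h R fun q hq hq2 => absurd hq hq2
  tfae_have 1 → 2 := by
    intro h p hp d W hW
    obtain ⟨W', h1, h2⟩ := (hall.1 h).2 p hp d W hW
    exact ⟨W', h1, h ℤ d W' h1.ws, h2⟩
  tfae_have 2 → 1 := by
    intro h R _ d W hW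
    exact hB d (fun p hp e _ => h p hp e) R d le_rfl W hW
  tfae_have 1 → 3 := by
    intro h
    refine ⟨h ℚ, hPOL ℤ fun d => hBSR ℤ d fun q hq => Or.inr ?_⟩
    exact (hI q hq d).2 ((hall.1 h).2 q hq d)
  tfae_have 3 → 1 := by
    rintro ⟨h1, h2⟩
    have h3 := (hFIN {p | p.Prime} fun p hp => hp).out 0 2
    intro R _
    exact h3.2 ⟨h1, fun d x p hp hx => chd_tf hALG hFUN h2 p hp d x hx⟩ R
      fun q hq hq2 => absurd hq hq2
  tfae_finish

end Pool.Agent.H63.PK
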