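import Pool.Agent.H63.PK.LOC
import Pool.Agent.H67.PK.BSR
import Pool.Agent.H49.LIN.CMC

/-!
# Board `pwk_modules`: from the prime fields to the rings in which the other primes are invertible
-/

set_option autoImplicit false

open Finset

namespace Pool.Agent.H63.PK

open Pool.Agent.H59.LIN Pool.Agent.H13.LN

theorem unit_of {R : Type} [CommRing R] {P : Set ℕ}
    (hR : ∀ q : ℕ, q.Prime → q ∉ P → IsUnit (q : R)) :
    ∀ N : ℕ, 0 < N → (∀ p ∈ P, ¬ p ∣ N) → IsUnit (N : R) := by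
  intro N
  induction N using Nat.strong_induction_on with
  | _ N ih =>
    intro h0 hN
    rcases Nat.eq_or_lt_of_le (Nat.succ_le_of_lt h0) with h1 | h1
    · have h2 : N = 1 := h1.symm
      rw [h2, Nat.cast_one]
      exact isUnit_one
    · have h2 : N ≠ 1 := by omega
      have h3 := Nat.minFac_prime h2
      obtain ⟨k, hk⟩ := Nat.minFac_dvd N
      have h4 : N.minFac ∉ P := fun h => hN _ h (Nat.minFac_dvd N)
      have hk0 : 0 < k := by
        rcases Nat.eq_zero_or_pos k with h | h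
        · rw [h, mul_zero] at hk
          omega
        · exact h
      have hkN : k < N := by
        have h5 := h3.two_le
        nlinarith
      have h6 := ih k hkN hk0 fun p hp hpk => hN p hp (hk ▸ Dvd.dvd.mul_left hpk _)
      rw [hk, Nat.cast_mul]
      exact (hR _ h3 h4).mul h6

theorem tors_kill {A : Type} [AddCommGroup A] {P : Set ℕ} (hP : ∀ p ∈ P, p.Prime)
    (hA : ∀ p ∈ P, ∀ x : A, p • x = 0 → x = 0) (y : A) (N : ℕ) (hN : 0 < N) (hy : N • y = 0) :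
    ∃ N' : ℕ, 0 < N' ∧ N' • y = 0 ∧ ∀ p ∈ P, ¬ p ∣ N' := by
  have h1 : 0 < addOrderOf y :=
    addOrderOf_pos_iff.2 (isOfFinAddOrder_iff_nsmul_eq_zero.2 ⟨N, hN, hy⟩)
  refine ⟨addOrderOf y, h1, addOrderOf_nsmul_eq_zero y, fun p hp hpy => ?_⟩
  obtain ⟨k, hk⟩ := hpy
  have h2 : k • y = 0 := by
    refine hA p hp _ ?_
    rw [← mul_nsmul', ← hk, addOrderOf_nsmul_eq_zero]
  have hk0 : 0 < k := by
    rcases Nat.eq_zero_or_pos k with h | h
    · rw [h, mul_zero] at hk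
      omega
    · exact h
  have h3 := Nat.le_of_dvd hk0 (addOrderOf_dvd_of_nsmul_eq_zero h2)
  have h4 := (hP p hp).two_le
  nlinarith

theorem sm_congr {R : Type} [AddCommGroup R] {d : ℕ} {v : (n : ℕ) → Wd n → R}
    {W W' : List ℕ → R} (h : ∀ l, Gw d l → W l = W' l) (hv : Sm d v W) : Sm d v W' := by
  refine ⟨hv.1, hv.2.1, fun n w hw hdb => ?_⟩
  rw [hv.2.2 n w hw hdb]
  refine h _ ⟨?_, fun a ha => ?_⟩
  · rw [H49.LIN.length_gauss hw, hdb]
  · rw [H49.LIN.count_gauss hw, if_pos ((H49.LIN.mem_gauss hw a).1 ha)]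

theorem indu_congr {R : Type} [AddCommGroup R] {d : ℕ} {W W' : List ℕ → R}
    (h : ∀ l, Gw d l → W l = W' l) (hW : Indu d W) : Indu d W' := by
  obtain ⟨v, hv⟩ := hW
  exact ⟨v, sm_congr h hv⟩

/-- the induced integral weight systems -/
def LL' (hIDL : T_IDL) (d : ℕ) : Submodule ℤ (Chd d →+ ℤ) where
  carrier := {g | Indu d (H49.LNT.wf g)}
  add_mem' := by
    intro g g' hg hg'
    have h1 := hIDL ℤ d Bool univ (fun b => if b then H49.LNT.wf g else H49.LNT.wf g')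
      (fun _ => 1) (fun b _ => by cases b; exacts [hg', hg])
    refine indu_congr (fun l hl => ?_) h1
    rw [H49.LNT.wf_pos _ l hl]
    simp only [Fintype.sum_bool, if_true, Bool.false_eq_true, if_false, one_mul, Int.cast_id]
    rw [H49.LNT.wf_pos _ l hl, H49.LNT.wf_pos _ l hl]
    rfl
  zero_mem' := by
    have h1 := hIDL ℤ d Bool ∅ (fun _ => H49.LNT.wf (0 : Chd d →+ ℤ))
      (fun _ => 1) (fun b hb => absurd hb (Finset.notMem_empty b))
    refine indu_congr (fun l hl => ?_) h1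
    rw [H49.LNT.wf_pos _ l hl]
    simp
  smul_mem' := by
    intro c g hg
    have h1 := hIDL ℤ d Unit univ (fun _ => H49.LNT.wf g) (fun _ => c) (fun _ _ => hg)
    refine indu_congr (fun l hl => ?_) h1
    rw [H49.LNT.wf_pos _ l hl]
    simp only [Finset.univ_unique, Finset.sum_singleton, Int.cast_id]
    rw [H49.LNT.wf_pos _ l hl]
    rfl

theorem mem_LL' (hIDL : T_IDL) (d : ℕ) (g : Chd d →+ ℤ) :
    g ∈ LL' hIDL d ↔ Indu d (H49.LNT.wf g) := Iff.rfl

/-- the coordinates generate the homomorphisms to `ℤ` -/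
theorem coord_span {A : Type} [AddCommGroup A] (r : ℕ) (ξ : Fin r → A →+ ℤ) (a : Fin r → A)
    (htor : ∀ z : A, ∃ M : ℕ, 0 < M ∧ M • (z - ∑ i, ξ i z • a i) = 0) (g : A →+ ℤ) :
    g = ∑ i, g (a i) • ξ i := by
  ext z
  obtain ⟨M, hM, hz⟩ := htor z
  have h1 : (M : ℤ) * (g z - ∑ i, ξ i z * g (a i)) = 0 := by
    have h2 := congrArg g hz
    rw [map_nsmul, map_sub, map_sum, map_zero, nsmul_eq_mul] at h2
    rw [← h2]
    congr 2
    refine Finset.sum_congr rfl fun i _ => ?_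
    rw [map_zsmul, smul_eq_mul]
  have h3 : g z - ∑ i, ξ i z * g (a i) = 0 :=
    (mul_eq_zero.1 h1).resolve_left (by positivity)
  rw [AddMonoidHom.finsetSum_apply, sub_eq_zero.1 h3]
  refine Finset.sum_congr rfl fun i _ => ?_
  rw [AddMonoidHom.smul_apply, smul_eq_mul, mul_comm]

/-- a multiple prime to `p` of every homomorphism is induced -/
theorem nak (hIDL : T_IDL) (p : ℕ) (hp : p.Prime) (d : ℕ) (h : LiftI p d)
    (r : ℕ) (ξ : Fin r → Chd d →+ ℤ) (a : Fin r → Chd d)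
    (htor : ∀ z : Chd d, ∃ M : ℕ, 0 < M ∧ M • (z - ∑ i, ξ i z • a i) = 0) :
    ∃ m : ℤ, ¬ (p : ℤ) ∣ m ∧ ∀ i, m • ξ i ∈ LL' hIDL d := by
  classical
  have : Fact p.Prime := ⟨hp⟩
  have hfg : (⊤ : Submodule ℤ ((Chd d →+ ℤ) ⧸ LL' hIDL d)).FG := by
    have h1 : (⊤ : Submodule ℤ (Chd d →+ ℤ)).FG := by
      refine ⟨univ.image ξ, ?_⟩
      rw [eq_top_iff]
      intro g _
      rw [coord_span r ξ a htor g]
      refine Submodule.sum_mem _ fun i _ => Submodule.smul_mem _ _ (Submodule.subset_span ?_)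
      simp
    have h2 := h1.map (LL' hIDL d).mkQ
    rwa [Submodule.map_top, Submodule.range_mkQ] at h2
  have hle : (⊤ : Submodule ℤ ((Chd d →+ ℤ) ⧸ LL' hIDL d)) ≤
      (Ideal.span {(p : ℤ)}) • (⊤ : Submodule ℤ ((Chd d →+ ℤ) ⧸ LL' hIDL d)) := by
    intro x _
    obtain ⟨g, rfl⟩ := Submodule.mkQ_surjective _ x
    -- the reduction of g
    obtain ⟨W, hW, hW2⟩ := (H49.LNT.wsc d (ZMod p)).2 ((Int.castAddHom (ZMod p)).comp g)
    obtain ⟨W', h1, h2, h3⟩ := h W hW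
    obtain ⟨g', hg'⟩ := (H49.LNT.wsc d ℤ).1 W' h1
    have h4 : g' ∈ LL' hIDL d := by
      rw [mem_LL']
      refine indu_congr (fun l hl => ?_) h2
      rw [H49.LNT.wf_pos _ l hl, hg' ⟨l, hl⟩]
    have h5 : ∀ z : Chd d, (p : ℤ) ∣ (g - g') z := by
      intro z
      have h6 : (Int.castAddHom (ZMod p)).comp g = (Int.castAddHom (ZMod p)).comp g' := by
        refine hom_ext' _ _ _ fun l => ?_
        rw [hW2 l, AddMonoidHom.comp_apply, hg' l]
        exact (h3 l.1 l.2).symm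
      have h7 := DFunLike.congr_fun h6 z
      rw [← ZMod.intCast_zmod_eq_zero_iff_dvd (b := p)]
      rw [AddMonoidHom.sub_apply, Int.cast_sub]
      exact sub_eq_zero.2 h7
    choose k hk using h5
    have hp0 : (p : ℤ) ≠ 0 := by exact_mod_cast hp.ne_zero
    obtain ⟨g'', hg''⟩ : ∃ g'' : Chd d →+ ℤ, g - g' = (p : ℤ) • g'' := by
      refine ⟨AddMonoidHom.mk' k fun y z => ?_, ?_⟩
      · refine mul_left_cancel₀ hp0 ?_
        rw [mul_add, ← hk, ← hk, ← hk, map_add]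
      · refine DFunLike.ext _ _ fun z => ?_
        rw [AddMonoidHom.smul_apply, smul_eq_mul]
        exact hk z
    have h8 : (LL' hIDL d).mkQ g = (p : ℤ) • (LL' hIDL d).mkQ g'' := by
      rw [← map_smul, ← hg'', ← sub_eq_zero, ← map_sub]
      have h9 : g - (g - g') = g' := by abel
      rw [h9]
      exact (Submodule.Quotient.mk_eq_zero _).2 h4
    rw [h8]
    exact Submodule.smul_mem_smul (Ideal.mem_span_singleton_self _) Submodule.mem_top
  obtain ⟨m, h1, h2⟩ := Submodule.exists_sub_one_mem_and_smul_eq_zero_of_fg_of_le_smul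
    (Ideal.span {(p : ℤ)}) ⊤ hfg hle
  refine ⟨m, fun hpm => ?_, fun i => ?_⟩
  · rw [Ideal.mem_span_singleton] at h1
    have h3 : (p : ℤ) ∣ 1 := by
      have h4 := dvd_sub hpm h1
      rwa [sub_sub_cancel] at h4
    have h5 := Int.natAbs_dvd_natAbs.2 h3
    simp only [Int.natAbs_natCast, Int.natAbs_one, Nat.dvd_one] at h5
    exact hp.one_lt.ne' h5
  · have h3 := h2 ((LL' hIDL d).mkQ (ξ i)) Submodule.mem_top
    rw [← map_smul] at h3
    exact (Submodule.Quotient.mk_eq_zero _).1 h3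

theorem bip (hTFL : T_TFL) (hIDL : T_IDL) (P : Set ℕ) (hP : ∀ p ∈ P, p.Prime)
    (hne : P.Nonempty) (d : ℕ) (h : ∀ p ∈ P, LiftI p d) (R : Type) [CommRing R]
    (hR : ∀ q : ℕ, q.Prime → q ∉ P → IsUnit (q : R)) (W : List ℕ → R) (hW : WS d W) :
    Indu d W := by
  have hFG : AddGroup.FG (Chd d) := H99.LNT.fgc d
  obtain ⟨r, ξ, a, -, htor⟩ := H67.PK.fg_coord (Chd d)
  -- a common multiplier
  obtain ⟨J, hJ⟩ : ∃ J : Ideal ℤ, ∀ z : ℤ, z ∈ J ↔ ∀ i, z • ξ i ∈ LL' hIDL d := by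
    refine ⟨⨅ i, (LL' hIDL d).comap (LinearMap.toSpanSingleton ℤ (Chd d →+ ℤ) (ξ i)),
      fun z => ?_⟩
    rw [Submodule.mem_iInf]
    rfl
  obtain ⟨m, hm⟩ := (IsPrincipalIdealRing.principal J).principal
  have hmJ : m ∈ J := by
    rw [hm]
    exact Submodule.mem_span_singleton_self m
  have hmp : ∀ p ∈ P, ¬ (p : ℤ) ∣ m := by
    intro p hp hpm
    obtain ⟨z, hz1, hz2⟩ := nak hIDL p (hP p hp) d (h p hp) r ξ a htor
    have h1 : z ∈ J := (hJ z).2 hz2
    rw [hm, Submodule.mem_span_singleton] at h1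
    obtain ⟨c, hc⟩ := h1
    rw [smul_eq_mul] at hc
    exact hz1 (hc ▸ Dvd.dvd.mul_left hpm c)
  have hm0 : m ≠ 0 := by
    obtain ⟨p, hp⟩ := hne
    rintro rfl
    exact hmp p hp (dvd_zero _)
  have hunit : IsUnit ((m : ℤ) : R) := by
    have h1 : IsUnit ((m.natAbs : ℕ) : R) := by
      refine unit_of hR m.natAbs (Int.natAbs_pos.2 hm0) fun p hp hpm => ?_
      exact hmp p hp (Int.natCast_dvd.2 hpm)
    rcases Int.natAbs_eq m with h2 | h2
    · rw [h2, Int.cast_natCast]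
      exact h1
    · rw [h2, Int.cast_neg, Int.cast_natCast]
      exact h1.neg
  obtain ⟨u, hu⟩ := hunit
  -- no torsion
  have htf : ∀ p ∈ P, ∀ x : Chd d, p • x = 0 → x = 0 := by
    intro p hp
    refine (chd_lift hTFL p (hP p hp) d).2 fun V hV => ?_
    obtain ⟨V', h1, -, h3⟩ := h p hp V hV
    exact ⟨V', h1, h3⟩
  obtain ⟨φ, hφ⟩ := (H49.LNT.wsc d R).1 W hW
  have hexp : ∀ x : Chd d, φ x = ∑ i, ((ξ i x : ℤ) : R) * φ (a i) := by
    intro x
    obtain ⟨M, hM, hx⟩ := htor x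
    obtain ⟨N, hN, hN2, hN3⟩ := tors_kill hP htf _ M hM hx
    have h1 := congrArg φ hN2
    rw [map_nsmul, map_sub, map_sum, map_zero, nsmul_eq_mul] at h1
    have h2 := (unit_of hR N hN hN3).mul_right_eq_zero.1 h1
    rw [sub_eq_zero.1 h2]
    refine Finset.sum_congr rfl fun i _ => ?_
    rw [map_zsmul, zsmul_eq_mul]
  have h1 := hIDL R d (Fin r) univ (fun i => H49.LNT.wf (m • ξ i))
    (fun i => ((u⁻¹ : Rˣ) : R) * φ (a i)) fun i _ => (hJ m).1 hmJ i
  refine indu_congr (fun l hl => ?_) h1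
  rw [← hφ ⟨l, hl⟩, hexp]
  refine Finset.sum_congr rfl fun i _ => ?_
  rw [H49.LNT.wf_pos _ l hl, AddMonoidHom.smul_apply, smul_eq_mul, Int.cast_mul, ← hu]
  have h2 : ((u⁻¹ : Rˣ) : R) * (u : R) = 1 := Units.inv_mul u
  linear_combination (φ (a i) * ((ξ i
    (QuotientAddGroup.mk (Finsupp.single (⟨l, hl⟩ : GW d) 1)) : ℤ) : R)) * h2

end Pool.Agent.H63.PK
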