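import Pool.Agent.H63.PK.Stmt

/-!
# Primitive weight systems and Lin's question (`MP_559314_gt`): objects of the proof
-/

set_option autoImplicit false

open Finset

namespace Pool.Agent.H63.PK

open Pool.Agent.H59.LIN Pool.Agent.H13.LN

/-- closed words: every letter occurs twice -/
def Clo (l : List ℕ) : Prop := ∀ a ∈ l, l.count a = 2

/-- the word of the letters in `J` -/
def rs (J : Finset ℕ) (l : List ℕ) : List ℕ := l.filter fun a => decide (a ∈ J)

/-- The exponential of the set function `h`: the sum over the set partitions of `T` of the products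
of the values of `h` on the blocks, defined by recursion (the block of the smallest element). -/
noncomputable def Es {A : Type} [CommRing A] (h : Finset ℕ → A) (T : Finset ℕ) : A :=
  if hT : T.Nonempty then
    ∑ J ∈ (T.powerset.filter fun J => T.min' hT ∈ J).attach, h J.1 * Es h (T \ J.1)
  else 1
termination_by T.card
decreasing_by
  have h1 := (Finset.mem_filter.1 J.2).2
  exact Finset.card_lt_card (Finset.ssubset_iff_of_subset Finset.sdiff_subset |>.2
    ⟨T.min' hT, T.min'_mem hT, fun h2 => (Finset.mem_sdiff.1 h2).2 h1⟩)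

/-- the exponential of a function on words -/
noncomputable def Ex {A : Type} [CommRing A] (g : List ℕ → A) (l : List ℕ) : A :=
  Es (fun J => g (rs J l)) l.toFinset

/-- the generic combination of the functions `x d i` -/
noncomputable def gx {R : Type} [CommRing R] {r : ℕ → ℕ} (x : (d : ℕ) → Fin (r d) → List ℕ → R)
    (l : List ℕ) : MvPolynomial (Σ d : ℕ, Fin (r d)) R :=
  ∑ i : Fin (r (l.length / 2)),
    MvPolynomial.C (x (l.length / 2) i l) * MvPolynomial.X ⟨l.length / 2, i⟩

/-- the weight of the variables -/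
def wv (r : ℕ → ℕ) (j : Σ d : ℕ, Fin (r d)) : ℕ := j.1

/-- the relations and the connected sums, with coefficients in `R` -/
noncomputable def RelM (R : Type) [CommRing R] (d : ℕ) : Submodule R (GW d →₀ R) :=
  Submodule.span R {z | ∃ y : GW d →₀ ℤ, RelP d y ∧
    z = y.mapRange (Int.cast : ℤ → R) Int.cast_zero}

/-- `x` and `y` are dual bases of the primitive weight systems and of the indecomposables of
degree `d`. -/
structure Bs (R : Type) [CommRing R] (d r : ℕ) (x : Fin r → List ℕ → R)
    (y : Fin r → GW d →₀ R) : Prop where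
  pws : ∀ i, PWS d (x i)
  dual : ∀ i j, ((y j).sum fun l c => c * x i l.1) = if i = j then 1 else 0
  spn : ∀ l : GW d, Finsupp.single l 1 - ∑ i, x i l.1 • y i ∈ RelM R d

/-- dual systems of primitive weight systems and combinations of chord diagrams -/
structure Dat (R : Type) [CommRing R] (r : ℕ → ℕ) (x : (d : ℕ) → Fin (r d) → List ℕ → R)
    (y : (d : ℕ) → Fin (r d) → GW d →₀ R) : Prop where
  zero : r 0 = 0
  pws : ∀ d i, PWS d (x d i)
  dual : ∀ d i j, ((y d j).sum fun l c => c * x d i l.1) = if i = j then 1 else 0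

/-- the spanning condition in the degrees `1, …, n` -/
def Spn (R : Type) [CommRing R] (r : ℕ → ℕ) (x : (d : ℕ) → Fin (r d) → List ℕ → R)
    (y : (d : ℕ) → Fin (r d) → GW d →₀ R) (n : ℕ) : Prop :=
  ∀ d, 0 < d → d ≤ n → ∀ l : GW d, Finsupp.single l 1 - ∑ i, x d i l.1 • y d i ∈ RelM R d

/-- The data exist in the degrees of `P` if there are dual bases in these degrees. -/
theorem exDat (R : Type) [CommRing R] (P : ℕ → Prop)
    (h : ∀ d, P d → 0 < d → ∃ (r : ℕ) (x : Fin r → List ℕ → R) (y : Fin r → GW d →₀ R),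
      Bs R d r x y) :
    ∃ (r : ℕ → ℕ) (x : (d : ℕ) → Fin (r d) → List ℕ → R)
      (y : (d : ℕ) → Fin (r d) → GW d →₀ R), Dat R r x y ∧
      (∀ n, (∀ d ≤ n, P d) → Spn R r x y n) ∧ ∀ d, ¬ P d → r d = 0 := by
  have h' : ∀ d, ∃ D : (Σ r : ℕ, (Fin r → List ℕ → R) × (Fin r → GW d →₀ R)),
      (∀ i, PWS d (D.2.1 i)) ∧
      (∀ i j, ((D.2.2 j).sum fun l c => c * D.2.1 i l.1) = if i = j then 1 else 0) ∧
      (P d → 0 < d → ∀ l : GW d,
        Finsupp.single l 1 - ∑ i, D.2.1 i l.1 • D.2.2 i ∈ RelM R d) ∧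
      ((¬ P d ∨ d = 0) → D.1 = 0) := by
    intro d
    by_cases hd : P d ∧ 0 < d
    · obtain ⟨r, x, y, h1⟩ := h d hd.1 hd.2
      refine ⟨⟨r, x, y⟩, h1.pws, h1.dual, fun _ _ => h1.spn, fun h2 => ?_⟩
      rcases h2 with h2 | h2
      · exact absurd hd.1 h2
      · omega
    · refine ⟨⟨0, fun i => i.elim0, fun i => i.elim0⟩, fun i => i.elim0, fun i => i.elim0,
        fun h1 h2 => absurd ⟨h1, h2⟩ hd, fun _ => rfl⟩
  choose D hD using h'
  refine ⟨fun d => (D d).1, fun d => (D d).2.1, fun d => (D d).2.2, ⟨?_, ?_, ?_⟩, ?_, ?_⟩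
  · exact (hD 0).2.2.2 (Or.inr rfl)
  · exact fun d => (hD d).1
  · exact fun d => (hD d).2.1
  · exact fun n hn d h0 hd => (hD d).2.2.1 (hn d hd) h0
  · exact fun d hd => (hD d).2.2.2 (Or.inl hd)

/-- the class of a combination of chord diagrams -/
noncomputable def ya (R : Type) [CommRing R] {d : ℕ} (y : GW d →₀ R) : Alg R :=
  y.sum fun l c => c • cls R l

/-- the homomorphism from the polynomial ring given by the combinations `y` -/
noncomputable def Ph (R : Type) [CommRing R] {r : ℕ → ℕ}
    (y : (d : ℕ) → Fin (r d) → GW d →₀ R) : MvPolynomial (Σ d : ℕ, Fin (r d)) R →ₐ[R] Alg R :=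
  MvPolynomial.aeval fun j => ya R (y j.1 j.2)

/-- Every weight system of degree `d` over `ℤ / p` is the reduction of a weight system over `ℤ`. -/
def LiftW (p d : ℕ) : Prop :=
  ∀ W : List ℕ → ZMod p, WS d W → ∃ W' : List ℕ → ℤ, WS d W' ∧ Red p d W' W

/-- Every weight system of degree `d` over `ℤ / p` is the reduction of a weight system over `ℤ` which
is induced by an integer valued Vassiliev invariant of degree at most `d`. -/
def LiftI (p d : ℕ) : Prop :=
  ∀ W : List ℕ → ZMod p, WS d W → ∃ W' : List ℕ → ℤ, WS d W' ∧ Indu d W' ∧ Red p d W' W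

end Pool.Agent.H63.PK
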