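import Pool.Agent.H63.PK.Targets

/-!
# Board `pwk_modules`, row FUN: weight systems as linear forms on the algebra of chord diagrams
-/

set_option autoImplicit false

open Finset

namespace Pool.Agent.H63.PK

open Pool.Agent.H59.LIN Pool.Agent.H13.LN

theorem clo_of_gw {d : ℕ} {l : List ℕ} (h : Gw d l) : Clo l := h.2

theorem gw_of_clo {l : List ℕ} (h : Clo l) : ∃ d, Gw d l := by
  refine ⟨l.toFinset.card, ?_, h⟩
  have h1 : ∑ a ∈ l.toFinset, l.count a = l.length := List.sum_toFinset_count_eq_length l
  rw [← h1, Finset.sum_congr rfl fun a ha => h a (List.mem_toFinset.1 ha), Finset.sum_const,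
    smul_eq_mul, mul_comm]

theorem clo_map {l : List ℕ} {f : ℕ → ℕ} (hl : Clo l) (hf : Set.InjOn f {a | a ∈ l}) :
    Clo (l.map f) := by
  intro b hb
  obtain ⟨a, ha, rfl⟩ := List.mem_map.1 hb
  rw [← hl a ha, List.count, List.countP_map, List.count]
  refine List.countP_congr fun x hx => ?_
  simp only [Function.comp, beq_iff_eq]
  exact ⟨fun h => hf hx ha h, fun h => by rw [h]⟩

theorem clo_append {l m : List ℕ} (hl : Clo l) (hm : Clo m) (h : ∀ a ∈ l, a ∉ m) :
    Clo (l ++ m) := by
  intro a ha
  rw [List.count_append]
  rcases List.mem_append.1 ha with h1 | h1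
  · rw [hl a h1, List.count_eq_zero_of_not_mem (h a h1)]
  · rw [hm a h1, List.count_eq_zero_of_not_mem fun h2 => h a h2 h1]

/-- the connected sum -/
def jn (l m : List ℕ) : List ℕ := l.map (fun a => 2 * a) ++ m.map (fun a => 2 * a + 1)

theorem jn_clo {l m : List ℕ} (hl : Clo l) (hm : Clo m) : Clo (jn l m) := by
  refine clo_append (clo_map hl ?_) (clo_map hm ?_) ?_
  · intro a _ b _ h
    simp only at h
    omega
  · intro a _ b _ h
    simp only at h
    omega
  · intro a ha hb
    obtain ⟨x, _, rfl⟩ := List.mem_map.1 ha
    obtain ⟨y, _, h⟩ := List.mem_map.1 hb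
    omega

/-- graded weight systems -/
structure GS {M : Type} [AddCommGroup M] (f : List ℕ → M) : Prop where
  out : ∀ l, ¬ Clo l → f l = 0
  ws : ∀ d, WS d f

section

variable {M : Type} [AddCommGroup M] {f : List ℕ → M}

theorem GS.relab (hf : GS f) {l : List ℕ} (hl : Clo l) (g : ℕ → ℕ)
    (hg : Set.InjOn g {a | a ∈ l}) : f (l.map g) = f l := by
  obtain ⟨d, hd⟩ := gw_of_clo hl
  exact (hf.ws d).relab l g hd hg

/-- the operator of a closed word -/
noncomputable def op (m : List ℕ) (f : List ℕ → M) (l : List ℕ) : M :=
  open Classical in if Clo l ∧ Clo m then f (jn l m) else 0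

theorem op_pos {l m : List ℕ} (hl : Clo l) (hm : Clo m) : op m f l = f (jn l m) := by
  unfold op
  exact if_pos ⟨hl, hm⟩

theorem op_out {m : List ℕ} (hm : ¬ Clo m) : op m f = 0 := by
  funext l
  unfold op
  exact if_neg fun h => hm h.2

/-- a word of the first degree -/
theorem op_gs (hS : T_SLD) (m : List ℕ) (hf : GS f) : GS (op m f) := by
  by_cases hm : Clo m
  · refine ⟨fun l hl => if_neg fun h => hl h.1, fun d => ⟨?_, ?_, ?_, ?_⟩⟩
    · intro l g hl hg
      have hl2 : Clo (l.map g) := clo_map hl.2 hg
      rw [op_pos hl2 hm, op_pos hl.2 hm]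
      have h1 : jn (l.map g) m = (jn l m).map
          (fun n => if n % 2 = 0 then 2 * g (n / 2) else n) := by
        unfold jn
        rw [List.map_append, List.map_map, List.map_map, List.map_map]
        congr 1
        · refine List.map_congr_left fun a _ => ?_
          simp only [Function.comp]
          rw [if_pos (by omega), Nat.mul_div_cancel_left _ (by norm_num)]
        · refine List.map_congr_left fun a _ => ?_
          simp only [Function.comp]
          rw [if_neg (by omega)]
      rw [h1]
      refine hf.relab (jn_clo hl.2 hm) _ ?_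
      intro x hx y hy hxy
      simp only at hxy
      have key : ∀ z, z ∈ jn l m → z % 2 = 0 → z / 2 ∈ l := by
        intro z hz hz2
        rcases List.mem_append.1 hz with h | h
        · obtain ⟨a, ha, rfl⟩ := List.mem_map.1 h
          rw [Nat.mul_div_cancel_left _ (by norm_num)]
          exact ha
        · obtain ⟨a, ha, rfl⟩ := List.mem_map.1 h
          omega
      by_cases h2 : x % 2 = 0
      · rw [if_pos h2] at hxy
        by_cases h3 : y % 2 = 0
        · rw [if_pos h3] at hxy
          have h4 := hg (key x hx h2) (key y hy h3) (by omega)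
          omega
        · rw [if_neg h3] at hxy
          omega
      · rw [if_neg h2] at hxy
        by_cases h3 : y % 2 = 0
        · rw [if_pos h3] at hxy
          omega
        · rwa [if_neg h3] at hxy
    · intro a l hl
      have hl2 : Clo (l ++ [a]) := by
        intro b hb
        have h1 : (l ++ [a]).Perm (a :: l) := by
          exact List.perm_append_comm
        rw [h1.count_eq b]
        exact hl.2 b (h1.mem_iff.1 hb)
      rw [op_pos hl2 hm, op_pos hl.2 hm]
      obtain ⟨e, he⟩ := gw_of_clo (jn_clo hl.2 hm)
      have h1 := (hS M e f (hf.ws e)).2.2 [] (l.map fun a => 2 * a)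
        (m.map fun a => 2 * a + 1) (2 * a) ?_ ?_
      · simp only [List.nil_append] at h1
        unfold jn
        rw [List.map_append, List.map_cons, List.map_cons, List.map_nil]
        exact h1.symm
      · have h2 := clo_map (f := fun a => 2 * a) hl.2 (fun a _ b _ h => by
          simp only at h
          omega)
        rwa [List.map_cons] at h2
      · rw [List.nil_append]
        unfold jn at he
        rwa [List.map_cons] at he
    · intro A B a hl
      rw [op_pos hl.2 hm]
      obtain ⟨e, he⟩ := gw_of_clo (jn_clo hl.2 hm)
      unfold jn at he ⊢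
      rw [List.map_append, List.map_cons, List.map_cons, List.append_assoc] at he ⊢
      exact (hf.ws e).isol _ _ _ he
    · intro A B C a b hl
      have h1 : ∀ {l' : List ℕ}, l'.Perm (A ++ a :: b :: (B ++ a :: C)) → Clo l' := by
        intro l' hp c hc
        rw [hp.count_eq c]
        exact hl.2 c (hp.mem_iff.1 hc)
      have p2 : (A ++ b :: a :: (B ++ a :: C)).Perm (A ++ a :: b :: (B ++ a :: C)) :=
        List.Perm.append_left A (List.Perm.swap _ _ _)
      have p3 : (A ++ a :: (B ++ a :: b :: C)).Perm (A ++ a :: b :: (B ++ a :: C)) := by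
        refine List.Perm.append_left A (List.Perm.cons a ?_)
        refine List.Perm.trans ?_ (List.perm_middle (a := b) (l₁ := B) (l₂ := a :: C))
        exact List.Perm.append_left B (List.Perm.swap _ _ _)
      have p4 : (A ++ a :: (B ++ b :: a :: C)).Perm (A ++ a :: b :: (B ++ a :: C)) := by
        refine List.Perm.append_left A (List.Perm.cons a ?_)
        exact List.perm_middle (a := b) (l₁ := B) (l₂ := a :: C)
      rw [op_pos hl.2 hm, op_pos (h1 p2) hm, op_pos (h1 p3) hm, op_pos (h1 p4) hm]
      obtain ⟨e, he⟩ := gw_of_clo (jn_clo hl.2 hm)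
      unfold jn at he ⊢
      simp only [List.map_append, List.map_cons, List.append_assoc, List.cons_append] at he ⊢
      exact (hf.ws e).four _ _ _ _ _ he
  · rw [op_out hm]
    refine ⟨fun _ _ => rfl, fun d => ⟨fun _ _ _ _ => rfl, fun _ _ _ => rfl,
      fun _ _ _ _ => rfl, fun _ _ _ _ _ _ => ?_⟩⟩
    simp

/-- the operators commute -/
theorem op_comm (hS : T_SLD) (m n : List ℕ) (hf : GS f) : op m (op n f) = op n (op m f) := by
  by_cases hm : Clo m
  · by_cases hn : Clo n
    · funext l
      by_cases hl : Clo l
      · rw [op_pos hl hm, op_pos hl hn, op_pos (jn_clo hl hm) hn, op_pos (jn_clo hl hn) hm]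
        have hc := jn_clo (jn_clo hl hm) hn
        obtain ⟨e, he⟩ := gw_of_clo hc
        have e1 : jn (jn l m) n = l.map (fun a => 4 * a) ++ (m.map (fun a => 4 * a + 2) ++
            (n.map (fun a => 2 * a + 1) ++ [])) := by
          unfold jn
          rw [List.map_append, List.map_map, List.map_map, List.append_assoc, List.append_nil]
          congr 1
          · refine List.map_congr_left fun a _ => ?_
            simp only [Function.comp]
            ring
          · congr 1
            refine List.map_congr_left fun a _ => ?_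
            simp only [Function.comp]
            ring
        have hm4 : Clo (m.map (fun a => 4 * a + 2)) := clo_map hm fun a _ b _ h => by
          have h' : 4 * a + 2 = 4 * b + 2 := h
          omega
        have hn2 : Clo (n.map (fun a => 2 * a + 1)) := clo_map hn fun a _ b _ h => by
          have h' : 2 * a + 1 = 2 * b + 1 := h
          omega
        rw [e1] at he ⊢
        rw [(hS M e f (hf.ws e)).2.1 _ _ _ _ hm4 hn2 he]
        have e2 : l.map (fun a => 4 * a) ++ (n.map (fun a => 2 * a + 1) ++
            (m.map (fun a => 4 * a + 2) ++ [])) = (jn (jn l n) m).map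
              (fun x => if x % 4 = 0 then x else if x % 2 = 0 then x / 2 else 2 * x) := by
          simp only [jn, List.map_append, List.map_map, List.append_assoc, List.append_nil]
          congr 1
          · refine List.map_congr_left fun a _ => ?_
            simp only [Function.comp]
            rw [if_pos (by omega)]
            ring
          · congr 1
            · refine List.map_congr_left fun a _ => ?_
              simp only [Function.comp]
              rw [if_neg (by omega), if_pos (by omega)]
              omega
            · refine List.map_congr_left fun a _ => ?_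
              simp only [Function.comp]
              rw [if_neg (by omega), if_neg (by omega)]
              ring
        rw [e2]
        refine hf.relab (jn_clo (jn_clo hl hn) hm) _ ?_
        intro x _ y _ hxy
        simp only at hxy
        split_ifs at hxy <;> omega
      · rw [show op m (op n f) l = 0 from if_neg fun h => hl h.1,
          show op n (op m f) l = 0 from if_neg fun h => hl h.1]
    · rw [op_out hn, op_out hn]
      funext l
      unfold op
      split_ifs <;> rfl
  · rw [op_out hm, op_out hm]
    funext l
    unfold op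
    split_ifs <;> rfl

/-- the empty word -/
theorem op_nil (hf : GS f) : op [] f = f := by
  funext l
  have h0 : Clo [] := fun a ha => absurd ha (List.not_mem_nil)
  by_cases hl : Clo l
  · rw [op_pos hl h0]
    unfold jn
    rw [List.map_nil, List.append_nil]
    refine hf.relab hl _ ?_
    intro a _ b _ h
    simp only at h
    omega
  · rw [hf.out l hl]
    exact if_neg fun h => hl h.1

/-- connected sums -/
theorem op_mul (l₀ m₀ : List ℕ) (hl0 : Clo l₀) (hm0 : Clo m₀) (h0 : Clo (l₀ ++ m₀))
    (hf : GS f) : op (l₀ ++ m₀) f = op l₀ (op m₀ f) := by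
  funext l
  by_cases hl : Clo l
  · rw [op_pos hl h0, op_pos hl hl0, op_pos (jn_clo hl hl0) hm0]
    have e1 : jn (jn l l₀) m₀ = (jn l (l₀ ++ m₀)).map
        (fun x => if x % 2 = 0 then 2 * x else if x / 2 ∈ l₀ then 2 * x else x) := by
      unfold jn
      rw [List.map_append, List.map_append, List.map_append, List.map_append, List.map_map,
        List.map_map, List.map_map, List.map_map, List.map_map, List.append_assoc]
      congr 1
      · refine List.map_congr_left fun a _ => ?_
        simp only [Function.comp]
        rw [if_pos (by omega)]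
      · congr 1
        · refine List.map_congr_left fun a ha => ?_
          simp only [Function.comp]
          rw [if_neg (by omega), if_pos]
          have : (2 * a + 1) / 2 = a := by omega
          rwa [this]
        · refine List.map_congr_left fun a ha => ?_
          simp only [Function.comp]
          rw [if_neg (by omega), if_neg]
          have : (2 * a + 1) / 2 = a := by omega
          rw [this]
          intro ha2
          have h1 := h0 a (List.mem_append_left _ ha2)
          rw [List.count_append, hl0 a ha2, hm0 a ha] at h1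
          omega
    rw [e1]
    symm
    refine hf.relab (jn_clo hl h0) _ ?_
    intro x _ y _ hxy
    simp only at hxy
    split_ifs at hxy <;> omega
  · rw [show op (l₀ ++ m₀) f l = 0 from if_neg fun h => hl h.1]
    exact (if_neg fun h => hl h.1).symm

/-- the operators depend linearly on graded weight systems, and the dependence on the word is a
weight system -/
theorem op_word (hS : T_SLD) (hf : GS f) (l : List ℕ) (d : ℕ) :
    WS d (fun m => op m f l) := by
  by_cases hl : Clo l
  · refine ⟨?_, ?_, ?_, ?_⟩
    · intro m g hm hg
      rw [op_pos hl (clo_map hm.2 hg), op_pos hl hm.2]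
      have h1 : jn l (m.map g) = (jn l m).map
          (fun n => if n % 2 = 0 then n else 2 * g (n / 2) + 1) := by
        unfold jn
        rw [List.map_append, List.map_map, List.map_map, List.map_map]
        congr 1
        · refine List.map_congr_left fun a _ => ?_
          simp only [Function.comp]
          rw [if_pos (by omega)]
        · refine List.map_congr_left fun a _ => ?_
          simp only [Function.comp]
          have : (2 * a + 1) / 2 = a := by omega
          rw [if_neg (by omega), this]
      rw [h1]
      refine hf.relab (jn_clo hl hm.2) _ ?_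
      intro x hx y hy hxy
      simp only at hxy
      have key : ∀ z, z ∈ jn l m → ¬ z % 2 = 0 → z / 2 ∈ m := by
        intro z hz hz2
        rcases List.mem_append.1 hz with h | h
        · obtain ⟨a, ha, rfl⟩ := List.mem_map.1 h
          omega
        · obtain ⟨a, ha, rfl⟩ := List.mem_map.1 h
          have : (2 * a + 1) / 2 = a := by omega
          rwa [this]
      by_cases h2 : x % 2 = 0
      · rw [if_pos h2] at hxy
        by_cases h3 : y % 2 = 0
        · rwa [if_pos h3] at hxy
        · rw [if_neg h3] at hxy
          omega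
      · rw [if_neg h2] at hxy
        by_cases h3 : y % 2 = 0
        · rw [if_pos h3] at hxy
          omega
        · rw [if_neg h3] at hxy
          have h4 := hg (key x hx h2) (key y hy h3) (by omega)
          omega
    · intro a m hm
      have hm2 : Clo (m ++ [a]) := by
        intro b hb
        have h1 : (m ++ [a]).Perm (a :: m) := by
          exact List.perm_append_comm
        rw [h1.count_eq b]
        exact hm.2 b (h1.mem_iff.1 hb)
      rw [op_pos hl hm2, op_pos hl hm.2]
      obtain ⟨e, he⟩ := gw_of_clo (jn_clo hl hm.2)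
      have h1 := (hS M e f (hf.ws e)).2.2 (l.map fun a => 2 * a)
        (m.map fun a => 2 * a + 1) [] (2 * a + 1) ?_ ?_
      · simp only [List.append_nil] at h1
        unfold jn
        rw [List.map_append, List.map_cons, List.map_cons, List.map_nil]
        exact h1.symm
      · have h2 := clo_map (f := fun a => 2 * a + 1) hm.2 (fun a _ b _ h => by
          simp only at h
          omega)
        rwa [List.map_cons] at h2
      · rw [List.append_nil]
        unfold jn at he
        rwa [List.map_cons] at he
    · intro A B a hm
      rw [op_pos hl hm.2]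
      obtain ⟨e, he⟩ := gw_of_clo (jn_clo hl hm.2)
      unfold jn at he ⊢
      rw [List.map_append, List.map_cons, List.map_cons, ← List.append_assoc] at he ⊢
      exact (hf.ws e).isol _ _ _ he
    · intro A B C a b hm
      have h1 : ∀ {l' : List ℕ}, l'.Perm (A ++ a :: b :: (B ++ a :: C)) → Clo l' := by
        intro l' hp c hc
        rw [hp.count_eq c]
        exact hm.2 c (hp.mem_iff.1 hc)
      have p2 : (A ++ b :: a :: (B ++ a :: C)).Perm (A ++ a :: b :: (B ++ a :: C)) :=
        List.Perm.append_left A (List.Perm.swap _ _ _)
      have p3 : (A ++ a :: (B ++ a :: b :: C)).Perm (A ++ a :: b :: (B ++ a :: C)) := by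
        refine List.Perm.append_left A (List.Perm.cons a ?_)
        refine List.Perm.trans ?_ (List.perm_middle (a := b) (l₁ := B) (l₂ := a :: C))
        exact List.Perm.append_left B (List.Perm.swap _ _ _)
      have p4 : (A ++ a :: (B ++ b :: a :: C)).Perm (A ++ a :: b :: (B ++ a :: C)) := by
        refine List.Perm.append_left A (List.Perm.cons a ?_)
        exact List.perm_middle (a := b) (l₁ := B) (l₂ := a :: C)
      rw [op_pos hl hm.2, op_pos hl (h1 p2), op_pos hl (h1 p3), op_pos hl (h1 p4)]
      obtain ⟨e, he⟩ := gw_of_clo (jn_clo hl hm.2)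
      unfold jn at he ⊢
      simp only [List.map_append, List.map_cons, ← List.append_assoc] at he ⊢
      have h4 := (hf.ws e).four (l.map (fun a => 2 * a) ++ A.map (fun a => 2 * a + 1))
        (B.map (fun a => 2 * a + 1)) (C.map (fun a => 2 * a + 1)) (2 * a + 1) (2 * b + 1)
      simp only [List.append_assoc] at h4 he ⊢
      exact h4 he
  · have h1 : (fun m => op m f l) = fun _ => 0 := by
      funext m
      exact if_neg fun h => hl h.1
    rw [h1]
    refine ⟨fun _ _ _ _ => rfl, fun _ _ _ => rfl, fun _ _ _ _ => rfl, fun _ _ _ _ _ _ => ?_⟩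
    simp

end

theorem ws_add {M : Type} [AddCommGroup M] {d : ℕ} {f g : List ℕ → M} (hf : WS d f)
    (hg : WS d g) : WS d (f + g) := by
  refine ⟨fun l h hl hh => ?_, fun a l hl => ?_, fun A B a hl => ?_, fun A B C a b hl => ?_⟩
  · rw [Pi.add_apply, Pi.add_apply, hf.relab l h hl hh, hg.relab l h hl hh]
  · rw [Pi.add_apply, Pi.add_apply, hf.rot a l hl, hg.rot a l hl]
  · rw [Pi.add_apply, hf.isol A B a hl, hg.isol A B a hl, add_zero]
  · have h1 := hf.four A B C a b hl
    have h2 := hg.four A B C a b hl
    simp only [Pi.add_apply]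
    have h3 := congrArg₂ (· + ·) h1 h2
    simp only [add_zero] at h3
    rw [← h3]
    abel

theorem ws_smul {R M : Type} [CommRing R] [AddCommGroup M] [Module R M] {d : ℕ}
    {f : List ℕ → M} (c : R) (hf : WS d f) : WS d (c • f) := by
  refine ⟨fun l h hl hh => ?_, fun a l hl => ?_, fun A B a hl => ?_, fun A B C a b hl => ?_⟩
  · rw [Pi.smul_apply, Pi.smul_apply, hf.relab l h hl hh]
  · rw [Pi.smul_apply, Pi.smul_apply, hf.rot a l hl]
  · rw [Pi.smul_apply, hf.isol A B a hl, smul_zero]
  · simp only [Pi.smul_apply]
    rw [← smul_sub, ← smul_add, ← smul_sub, hf.four A B C a b hl, smul_zero]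

/-- the module of graded weight systems -/
def GV (R M : Type) [CommRing R] [AddCommGroup M] [Module R M] : Submodule R (List ℕ → M) where
  carrier := {f | GS f}
  add_mem' := by
    intro f g hf hg
    have hf' : GS f := hf
    have hg' : GS g := hg
    exact ⟨fun l hl => by rw [Pi.add_apply, hf'.out l hl, hg'.out l hl, add_zero],
      fun d => ws_add (hf'.ws d) (hg'.ws d)⟩
  zero_mem' := ⟨fun _ _ => rfl, fun d => ⟨fun _ _ _ _ => rfl, fun _ _ _ => rfl,
      fun _ _ _ _ => rfl, fun _ _ _ _ _ _ => by simp⟩⟩
  smul_mem' := by
    intro c f hf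
    have hf' : GS f := hf
    exact ⟨fun l hl => by rw [Pi.smul_apply, hf'.out l hl, smul_zero],
      fun d => ws_smul c (hf'.ws d)⟩

section

variable (R M : Type) [CommRing R] [AddCommGroup M] [Module R M]

/-- the operator of a word as an endomorphism -/
noncomputable def opE (hS : T_SLD) (m : List ℕ) : Module.End R (GV R M) where
  toFun f := ⟨op m f.1, op_gs hS m f.2⟩
  map_add' f g := by
    refine Subtype.ext ?_
    funext l
    change op m (f.1 + g.1) l = op m f.1 l + op m g.1 l
    unfold op
    split_ifs
    · rfl
    · rw [add_zero]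
  map_smul' c f := by
    refine Subtype.ext ?_
    funext l
    change op m (c • f.1) l = c • op m f.1 l
    unfold op
    split_ifs
    · rfl
    · rw [smul_zero]

theorem opE_apply (hS : T_SLD) (m : List ℕ) (f : GV R M) (l : List ℕ) :
    (opE R M hS m f).1 l = op m f.1 l := rfl

theorem opE_ws (hS : T_SLD) (d : ℕ) : WS d (opE R M hS) := by
  refine ⟨fun m h hm hh => ?_, fun a m hm => ?_, fun A B a hm => ?_, fun A B C a b hm => ?_⟩
  · refine LinearMap.ext fun f => Subtype.ext (funext fun l => ?_)
    exact (op_word hS f.2 l d).relab m h hm hh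
  · refine LinearMap.ext fun f => Subtype.ext (funext fun l => ?_)
    exact (op_word hS f.2 l d).rot a m hm
  · refine LinearMap.ext fun f => Subtype.ext (funext fun l => ?_)
    exact (op_word hS f.2 l d).isol A B a hm
  · refine LinearMap.ext fun f => Subtype.ext (funext fun l => ?_)
    exact (op_word hS f.2 l d).four A B C a b hm

theorem opE_comm (hS : T_SLD) : ∀ a ∈ Set.range (opE R M hS), ∀ b ∈ Set.range (opE R M hS),
    a * b = b * a := by
  rintro _ ⟨m, rfl⟩ _ ⟨n, rfl⟩
  refine LinearMap.ext fun f => Subtype.ext ?_
  exact op_comm hS m n f.2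

end

open scoped IsMulCommutative in
/-- algebra homomorphisms to a noncommutative algebra with a commutative image -/
theorem act0 (R V : Type) [CommRing R] [AddCommGroup V] [Module R V] (hALG : T_ALG)
    (T : List ℕ → Module.End R V) (hws : ∀ d, WS d T)
    (hcomm : ∀ m n, T m * T n = T n * T m) (hone : T [] = 1)
    (hmul : ∀ (a b d : ℕ) (l m : List ℕ), Gw a l → Gw b m → Gw d (l ++ m) →
      T (l ++ m) = T l * T m) :
    ∃ Ψ : Alg R →ₗ[R] Module.End R V, ∀ (e : ℕ) (l : GW e), Ψ (cls R l) = T l.1 := by
  obtain ⟨A, hA⟩ : ∃ A : Subalgebra R (Module.End R V),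
    A = Algebra.adjoin R (Set.range T) := ⟨_, rfl⟩
  have hcm : IsMulCommutative A := by
    rw [hA]
    refine Algebra.isMulCommutative_adjoin R ?_
    rintro _ ⟨m, rfl⟩ _ ⟨n, rfl⟩
    exact hcomm m n
  have hin : ∀ m, T m ∈ A := fun m => by
    rw [hA]
    exact Algebra.subset_adjoin ⟨m, rfl⟩
  obtain ⟨g, hg⟩ : ∃ g : List ℕ → A, ∀ m, (g m : Module.End R V) = T m :=
    ⟨fun m => ⟨T m, hin m⟩, fun m => rfl⟩
  have h1 : ∀ d, WS d g := by
    intro d
    refine ⟨fun m h hm hh => Subtype.ext ?_, fun a m hm => Subtype.ext ?_,
      fun A' B a hm => Subtype.ext ?_, fun A' B C a b hm => Subtype.ext ?_⟩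
    · rw [hg, hg]
      exact (hws d).relab m h hm hh
    · rw [hg, hg]
      exact (hws d).rot a m hm
    · rw [hg]
      exact (hws d).isol A' B a hm
    · have h4 := (hws d).four A' B C a b hm
      rw [← hg, ← hg, ← hg, ← hg] at h4
      exact h4
  have h2 : g [] = 1 := by
    refine Subtype.ext ?_
    rw [hg, hone]
    rfl
  have h3 : ∀ (a b d : ℕ) (l m : List ℕ), Gw a l → Gw b m → Gw d (l ++ m) →
      g (l ++ m) = g l * g m := by
    intro a b d l m hl hm hlm
    refine Subtype.ext ?_
    rw [hg, hmul a b d l m hl hm hlm, ← hg, ← hg]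
    rfl
  obtain ⟨Ψ, hΨ⟩ := (hALG R).1 A g h1 h2 h3
  refine ⟨A.val.toLinearMap ∘ₗ Ψ.toLinearMap, fun e l => ?_⟩
  change ((Ψ (cls R l) : A) : Module.End R V) = T l.1
  rw [hΨ e l, hg]

/-- an action of the algebra on the graded weight systems -/
theorem act (R M : Type) [CommRing R] [AddCommGroup M] [Module R M] (hSLD : T_SLD)
    (hALG : T_ALG) : ∃ Ψ : Alg R →ₗ[R] Module.End R (GV R M),
      ∀ (e : ℕ) (l : GW e), Ψ (cls R l) = opE R M hSLD l.1 :=
  act0 R (GV R M) hALG (opE R M hSLD) (opE_ws R M hSLD)
    (fun m n => opE_comm R M hSLD _ ⟨m, rfl⟩ _ ⟨n, rfl⟩)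
    (LinearMap.ext fun f => Subtype.ext (op_nil f.2))
    (fun _ _ _ l m hl hm hlm =>
      LinearMap.ext fun f => Subtype.ext (op_mul l m hl.2 hm.2 hlm.2 f.2))

theorem fun_row (hSLD : T_SLD) (hALG : T_ALG) : T_FUN := by
  intro R _ M _ _ d W hW
  classical
  obtain ⟨Ψ, hΨ⟩ := act R M hSLD hALG
  -- the graded weight system of W
  have hW0 : GS (fun l : List ℕ => if Gw d l then W l else 0) := by
    refine ⟨fun l hl => if_neg fun h => hl h.2, fun e => ?_⟩
    by_cases hed : e = d
    · subst hed
      have p1 : ∀ {l l' : List ℕ}, l'.Perm l → Gw e l → Gw e l' := by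
        intro l l' hp hl
        refine ⟨by rw [hp.length_eq]; exact hl.1, fun c hc => ?_⟩
        rw [hp.count_eq c]
        exact hl.2 c (hp.mem_iff.1 hc)
      refine ⟨fun m h hm hh => ?_, fun a m hm => ?_, fun A B a hm => ?_, fun A B C a b hm => ?_⟩
      · have h2 : Gw e (m.map h) := ⟨by rw [List.length_map]; exact hm.1, clo_map hm.2 hh⟩
        rw [if_pos h2, if_pos hm]
        exact hW.relab m h hm hh
      · have h2 : Gw e (m ++ [a]) := p1 List.perm_append_comm hm
        rw [if_pos h2, if_pos hm]
        exact hW.rot a m hm
      · rw [if_pos hm]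
        exact hW.isol A B a hm
      · have q2 : (A ++ b :: a :: (B ++ a :: C)).Perm (A ++ a :: b :: (B ++ a :: C)) :=
          List.Perm.append_left A (List.Perm.swap _ _ _)
        have q3 : (A ++ a :: (B ++ a :: b :: C)).Perm (A ++ a :: b :: (B ++ a :: C)) := by
          refine List.Perm.append_left A (List.Perm.cons a ?_)
          refine List.Perm.trans ?_ (List.perm_middle (a := b) (l₁ := B) (l₂ := a :: C))
          exact List.Perm.append_left B (List.Perm.swap _ _ _)
        have q4 : (A ++ a :: (B ++ b :: a :: C)).Perm (A ++ a :: b :: (B ++ a :: C)) := by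
          refine List.Perm.append_left A (List.Perm.cons a ?_)
          exact List.perm_middle (a := b) (l₁ := B) (l₂ := a :: C)
        rw [if_pos hm, if_pos (p1 q2 hm), if_pos (p1 q3 hm), if_pos (p1 q4 hm)]
        exact hW.four A B C a b hm
    · have h0 : ∀ l : List ℕ, l.length = 2 * e → (if Gw d l then W l else 0) = 0 :=
        fun l hl => if_neg fun h => hed (by have := h.1; omega)
      refine ⟨fun m h hm hh => ?_, fun a m hm => ?_, fun A B a hm => ?_, fun A B C a b hm => ?_⟩
      · rw [h0 _ hm.1, h0 _ (by rw [List.length_map]; exact hm.1)]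
      · rw [h0 _ hm.1, h0 _ (by
          have := hm.1
          simp only [List.length_append, List.length_cons, List.length_nil] at this ⊢
          omega)]
      · exact h0 _ hm.1
      · have h1 := hm.1
        simp only [List.length_append, List.length_cons] at h1
        rw [h0 _ hm.1, h0 _ (by simp only [List.length_append, List.length_cons]; omega),
          h0 _ (by simp only [List.length_append, List.length_cons]; omega),
          h0 _ (by simp only [List.length_append, List.length_cons]; omega)]
        simp
  let W0 : GV R M := ⟨_, hW0⟩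
  let ev : Module.End R (GV R M) →ₗ[R] M :=
    { toFun := fun a => (a W0).1 []
      map_add' := fun a b => rfl
      map_smul' := fun c a => rfl }
  refine ⟨ev.comp Ψ, fun e l => ?_⟩
  change ((Ψ (cls R l)) W0).1 [] = _
  rw [hΨ e l]
  change op l.1 (fun l : List ℕ => if Gw d l then W l else 0) [] = _
  have h0 : Clo [] := fun a ha => absurd ha (List.not_mem_nil)
  rw [op_pos h0 l.2.2]
  unfold jn
  rw [List.map_nil, List.nil_append]
  have hin : Set.InjOn (fun a => 2 * a + 1) {a | a ∈ l.1} := by
    intro a _ b _ h
    have h' : 2 * a + 1 = 2 * b + 1 := h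
    omega
  by_cases hed : e = d
  · subst hed
    have h2 : Gw e (l.1.map fun a => 2 * a + 1) :=
      ⟨by rw [List.length_map]; exact l.2.1, clo_map l.2.2 hin⟩
    rw [if_pos h2, if_pos rfl]
    exact hW.relab l.1 _ l.2 hin
  · rw [if_neg hed, if_neg]
    intro h
    have h1 := h.1
    rw [List.length_map, l.2.1] at h1
    omega

end Pool.Agent.H63.PK
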