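import Pool.Agent.H63.PK.POP
import Pool.Agent.H63.PK.FUN
import Pool.Agent.H99.LNT.FGQ
import Pool.Agent.H11.LNT.EXA

/-!
# Board `pwk_modules`: integral invariants from invariants over the localizations of `ℤ`
-/

set_option autoImplicit false

open Finset

namespace Pool.Agent.H63.PK

open Pool.Agent.H59.LIN Pool.Agent.H13.LN

theorem ws_comp {A B : Type} [AddCommGroup A] [AddCommGroup B] (φ : A →+ B) {d : ℕ}
    {f : List ℕ → A} (hf : WS d f) : WS d (fun l => φ (f l)) := by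
  refine ⟨fun l h hl hh => ?_, fun a l hl => ?_, fun A' B' a hl => ?_, fun A' B' C a b hl => ?_⟩
  · exact congrArg φ (hf.relab l h hl hh)
  · exact congrArg φ (hf.rot a l hl)
  · exact (congrArg φ (hf.isol A' B' a hl)).trans (map_zero φ)
  · have h1 := congrArg φ (hf.four A' B' C a b hl)
    rwa [map_sub, map_add, map_sub, map_zero] at h1

theorem pws_comp {A B : Type} [AddCommGroup A] [AddCommGroup B] (φ : A →+ B) {d : ℕ}
    {f : List ℕ → A} (hf : PWS d f) : PWS d (fun l => φ (f l)) :=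
  ⟨ws_comp φ hf.ws, fun a b l m ha hb hl hm hlm =>
    (congrArg φ (hf.prim a b l m ha hb hl hm hlm)).trans (map_zero φ)⟩

theorem ext_comp {A B : Type} [AddCommGroup A] [AddCommGroup B] (φ : A →+ B) {n : ℕ}
    (F : Wd n → A) (w : SWd n) : ext (fun r => φ (F r)) [] w = φ (ext F [] w) :=
  H11.LNT.exa.2.2.2.2.2.2 A B φ n F [] w

theorem sm_comp {A B : Type} [AddCommGroup A] [AddCommGroup B] (φ : A →+ B) {d : ℕ}
    {v : (n : ℕ) → Wd n → A} {W : List ℕ → A} (h : Sm d v W) :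
    Sm d (fun n w => φ (v n w)) (fun l => φ (W l)) := by
  refine ⟨fun x y hxy hx => congrArg φ (h.1 x y hxy hx), fun n w hw hlt => ?_,
    fun n w hw hdb => ?_⟩
  · rw [ext_comp, h.2.1 n w hw hlt, map_zero]
  · rw [ext_comp, h.2.2 n w hw hdb]

/-- a multiple with a multiplier prime to `p` of an integral weight system which is induced over the
localization is induced over `ℤ` -/
theorem loc1 (hSYS : T_SYS) (hVFC : T_VFC) (p : ℕ) (hp : p.Prime) (d : ℕ) (W : List ℕ → ℤ)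
    (hW : Indu d (fun l => algebraMap ℤ (Zp p hp) (W l))) :
    ∃ b : ℤ, ¬ (p : ℤ) ∣ b ∧ Indu d (fun l => b * W l) := by
  classical
  obtain ⟨v, h1, h2, h3⟩ := hW
  obtain ⟨φ, h4, h5⟩ := (hVFC d (Zp p hp)).1 v h1 h2
  obtain ⟨S, -⟩ := hSYS
  have hFG : AddGroup.FG ((KW →₀ ℤ) ⧸ Fil (d + 1)) := H99.LNT.fgq _ _ _ S (d + 1)
  obtain ⟨T, hT⟩ := hFG.out
  obtain ⟨b, hb⟩ := IsLocalization.exist_integer_multiples_of_finset (Sp p hp)
    (T.image φ)
  have h6 : ∀ g : (KW →₀ ℤ) ⧸ Fil (d + 1), ∃ z : ℤ,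
      algebraMap ℤ (Zp p hp) z = algebraMap ℤ (Zp p hp) b * φ g := by
    intro g
    have hg : g ∈ AddSubgroup.closure (T : Set ((KW →₀ ℤ) ⧸ Fil (d + 1))) := by
      rw [hT]
      exact AddSubgroup.mem_top g
    induction hg using AddSubgroup.closure_induction with
    | mem g hg =>
      obtain ⟨z, hz⟩ := hb (φ g) (Finset.mem_image_of_mem φ hg)
      refine ⟨z, hz.trans ?_⟩
      exact Algebra.smul_def _ _
    | zero => exact ⟨0, by rw [map_zero, map_zero, mul_zero]⟩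
    | add x y _ _ hx hy =>
      obtain ⟨z, hz⟩ := hx
      obtain ⟨z', hz'⟩ := hy
      exact ⟨z + z', by rw [map_add, map_add, mul_add, hz, hz']⟩
    | neg x _ hx =>
      obtain ⟨z, hz⟩ := hx
      exact ⟨-z, by rw [map_neg, map_neg, mul_neg, hz]⟩
  choose ψ hψ using h6
  have hinj := zp_inj p hp
  obtain ⟨Ψ, hΨ⟩ : ∃ Ψ : (KW →₀ ℤ) ⧸ Fil (d + 1) →+ ℤ, ∀ g, Ψ g = ψ g := by
    refine ⟨AddMonoidHom.mk' ψ fun x y => ?_, fun g => rfl⟩
    refine hinj ?_
    rw [map_add, hψ, hψ, hψ, map_add, mul_add]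
  obtain ⟨h7, h8, h9⟩ := (hVFC d ℤ).2 Ψ
  refine ⟨b, b.2, _, h7, h8, fun n w hw hdb => ?_⟩
  refine hinj ?_
  rw [h9 n w hw, hΨ, hψ, h5 n w hw, h3 n w hw hdb, map_mul]

theorem loc (hSYS : T_SYS) (hVFC : T_VFC) (p : ℕ) (hp : p.Prime) (hY : Yes (Zp p hp)) (d : ℕ)
    (hL : LiftP p d) : LiftPI p d := by
  have : Fact p.Prime := ⟨hp⟩
  intro W hW
  obtain ⟨W', h1, h2⟩ := hL W hW
  obtain ⟨b, hb, hI⟩ := loc1 hSYS hVFC p hp d W'
    (hY d _ (ws_comp (algebraMap ℤ (Zp p hp)).toAddMonoidHom h1.ws))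
  have hb0 : ((b : ℤ) : ZMod p) ≠ 0 := by
    intro h
    exact hb ((ZMod.intCast_zmod_eq_zero_iff_dvd b p).1 h)
  obtain ⟨c, hc⟩ := ZMod.intCast_surjective ((b : ℤ) : ZMod p)⁻¹
  refine ⟨fun l => (AddMonoidHom.mulLeft (c * b)) (W' l), pws_comp _ h1, ?_, fun l hl => ?_⟩
  · obtain ⟨v, hv⟩ := hI
    have h3 := sm_comp (AddMonoidHom.mulLeft c) hv
    have h4 : (fun l => (AddMonoidHom.mulLeft c) (b * W' l)) =
        fun l => (AddMonoidHom.mulLeft (c * b)) (W' l) := by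
      funext l
      change c * (b * W' l) = c * b * W' l
      ring
    rw [h4] at h3
    exact ⟨_, h3⟩
  · change ((c * b * W' l : ℤ) : ZMod p) = W l
    push_cast
    rw [hc, inv_mul_cancel₀ hb0, one_mul]
    exact h2 l hl

end Pool.Agent.H63.PK
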