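import Pool.Agent.H63.PK.Asm

/-!
# Board `pwk_modules`: polynomial algebras over the localizations of `ℤ`
-/

set_option autoImplicit false

open Finset

namespace Pool.Agent.H63.PK

open Pool.Agent.H59.LIN Pool.Agent.H13.LN

/-- the integers which are not divisible by `p` -/
def Sp (p : ℕ) (hp : p.Prime) : Submonoid ℤ where
  carrier := {s | ¬ (p : ℤ) ∣ s}
  one_mem' := by
    intro h
    have h1 := Int.natAbs_dvd_natAbs.2 h
    simp only [Int.natAbs_natCast, Int.natAbs_one, Nat.dvd_one] at h1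
    exact hp.one_lt.ne' h1
  mul_mem' := by
    intro a b ha hb h
    rcases (Nat.prime_iff_prime_int.1 hp).dvd_or_dvd h with h1 | h1
    · exact ha h1
    · exact hb h1

/-- the ring of the fractions with denominators prime to `p` -/
abbrev Zp (p : ℕ) (hp : p.Prime) : Type := Localization (Sp p hp)

theorem sp_le (p : ℕ) (hp : p.Prime) : Sp p hp ≤ nonZeroDivisors ℤ := by
  intro s hs
  rw [mem_nonZeroDivisors_iff_ne_zero]
  rintro rfl
  exact hs (dvd_zero _)

theorem zp_inj (p : ℕ) (hp : p.Prime) : Function.Injective (algebraMap ℤ (Zp p hp)) :=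
  IsLocalization.injective _ (sp_le p hp)

theorem zp_unit (p : ℕ) (hp : p.Prime) (q : ℕ) (hq : q.Prime) (hqp : q ≠ p) :
    IsUnit (q : Zp p hp) := by
  have h1 : ((q : ℕ) : ℤ) ∈ Sp p hp := by
    intro h
    have h2 := Int.natCast_dvd_natCast.1 h
    exact hqp ((Nat.prime_dvd_prime_iff_eq hp hq).1 h2).symm
  have h3 := IsLocalization.map_units (Zp p hp) (⟨(q : ℤ), h1⟩ : Sp p hp)
  simpa using h3

theorem zp_ne (p : ℕ) (hp : p.Prime) : (p : Zp p hp) ≠ 0 := by
  intro h
  have h1 : algebraMap ℤ (Zp p hp) (p : ℤ) = algebraMap ℤ (Zp p hp) 0 := by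
    rw [map_zero, ← h]
    simp
  have h2 := zp_inj p hp h1
  exact hp.ne_zero (by exact_mod_cast h2)

/-- a polynomial algebra over a domain has no torsion -/
theorem poly_tf' {R : Type} [CommRing R] [IsDomain R] (h : IsPoly R) (p : ℕ) (hp : (p : R) ≠ 0)
    (x : Alg R) (hx : p • x = 0) : x = 0 := by
  obtain ⟨r, Φ, -⟩ := h
  have h1 : p • Φ.symm x = 0 := by
    rw [← map_nsmul, hx, map_zero]
  have h2 : Φ.symm x = 0 := by
    ext m
    have h3 := congrArg (MvPolynomial.coeff m) h1
    rw [MvPolynomial.coeff_zero] at h3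
    rw [MvPolynomial.coeff_zero]
    have h4 : MvPolynomial.coeff m (p • Φ.symm x) = (p : R) * MvPolynomial.coeff m (Φ.symm x) := by
      rw [← nsmul_eq_mul]
      exact map_nsmul (MvPolynomial.coeffAddMonoidHom m) p (Φ.symm x)
    rw [h4] at h3
    exact (mul_eq_zero.1 h3).resolve_left hp
  rw [← Φ.apply_symm_apply x, h2, map_zero]

theorem coprime_kill {A : Type} [AddCommGroup A] (x : A) (p : ℕ) (s : ℤ)
    (h : IsCoprime (p : ℤ) s) (h1 : p • x = 0) (h2 : s • x = 0) : x = 0 := by
  obtain ⟨a, b, hab⟩ := h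
  calc x = (a * (p : ℤ) + b * s) • x := by rw [hab, one_smul]
    _ = a • ((p : ℤ) • x) + b • (s • x) := by rw [add_smul, mul_smul, mul_smul]
    _ = 0 := by rw [h2, natCast_zsmul, h1, smul_zero, smul_zero, add_zero]

/-- the chord diagrams have no torsion of order `p` if the algebra over the localization is a
polynomial algebra -/
theorem pop (hALG : T_ALG) (hFUN : T_FUN) (p : ℕ) (hp : p.Prime) (h : IsPoly (Zp p hp)) (d : ℕ)
    (x : Chd d) (hx : p • x = 0) : x = 0 := by
  have : IsDomain (Zp p hp) := IsLocalization.isDomain_localization (sp_le p hp)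
  -- the map to the algebra
  have hj : ∃ j : Chd d →+ Alg (Zp p hp), ∀ l : GW d,
      j (QuotientAddGroup.mk (Finsupp.single l 1)) = cls (Zp p hp) l := by
    refine ⟨QuotientAddGroup.lift _ (Finsupp.liftAddHom fun l : GW d =>
      zmultiplesHom (Alg (Zp p hp)) (cls (Zp p hp) l)) ?_, fun l => ?_⟩
    · intro y hy
      rw [AddMonoidHom.mem_ker]
      induction hy using AddSubgroup.closure_induction with
      | mem y hy =>
        have h1 := (hALG (Zp p hp)).2.1 d y hy
        rw [Finsupp.liftAddHom_apply]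
        rw [← h1]
        refine Finsupp.sum_congr fun l _ => ?_
        rw [zmultiplesHom_apply, Int.cast_smul_eq_zsmul]
      | zero => rw [map_zero]
      | add y z _ _ h1 h2 => rw [map_add, h1, h2, add_zero]
      | neg y _ h1 => rw [map_neg, h1, neg_zero]
    · rw [QuotientAddGroup.lift_mk, Finsupp.liftAddHom_apply_single, zmultiplesHom_apply, one_smul]
  obtain ⟨j, hj⟩ := hj
  -- the map back
  obtain ⟨W, hW, hW2⟩ := (H49.LNT.wsc d (LocalizedModule (Sp p hp) (Chd d))).2
    (LocalizedModule.mkLinearMap (Sp p hp) (Chd d)).toAddMonoidHom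
  obtain ⟨F, hF⟩ := hFUN (Zp p hp) (LocalizedModule (Sp p hp) (Chd d)) d W hW
  have h1 : F.toAddMonoidHom.comp j =
      (LocalizedModule.mkLinearMap (Sp p hp) (Chd d)).toAddMonoidHom := by
    refine hom_ext' _ _ _ fun l => ?_
    rw [AddMonoidHom.comp_apply, hj l, hW2 l]
    change F (cls (Zp p hp) l) = W l.1
    rw [hF d l, if_pos rfl]
  have h2 : j x = 0 := by
    refine poly_tf' h p (zp_ne p hp) _ ?_
    rw [← map_nsmul, hx, map_zero]
  have h3 := DFunLike.congr_fun h1 x
  rw [AddMonoidHom.comp_apply, h2, map_zero] at h3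
  have h4 : LocalizedModule.mkLinearMap (Sp p hp) (Chd d) x = 0 := h3.symm
  have h4' : LocalizedModule.mk (S := Sp p hp) x 1 = LocalizedModule.mk (0 : Chd d) 1 := by
    rw [LocalizedModule.zero_mk]
    exact h4
  obtain ⟨s, hs'⟩ := LocalizedModule.mk_eq.1 h4'
  have hs : (s : ℤ) • x = 0 := by
    rw [one_smul, one_smul] at hs'
    have h5 : (s : ℤ) • x = (s : ℤ) • (0 : Chd d) := hs'
    rw [h5, zsmul_zero]
  exact coprime_kill x p s (((Nat.prime_iff_prime_int.1 hp).coprime_iff_not_dvd).2 s.2) hx hs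

end Pool.Agent.H63.PK
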