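import Pool.Agent.H63.PK.Targets
import Pool.Agent.H25.LIN.BR
import Pool.Agent.H60.LIN.CAP
import Pool.Agent.H72.LIN.CAI
import Pool.Agent.H49.LIN.CMC

/-!
# Board `pwk_modules`, row PRD: products of invariants
-/

set_option autoImplicit false

open Finset

namespace Pool.Agent.H63.PK

open Pool.Agent.H59.LIN Pool.Agent.H13.LN

/-- the cube of an invariant of degree `a` -/
theorem prd_dg (hSBW : T_SBW) {K : Type} [CommRing K] {a : ℕ} {u : (n : ℕ) → Wd n → K}
    {U : List ℕ → K} (hu : Sm a u U) {n : ℕ} {w : SWd n} {d : ℕ} {t : Fin d → ℕ}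
    (hw : Knot w) (ht : Function.Injective t) (hdb : IsDb w t) : Dg (cb (u n) w t) a := by
  intro A ε hA
  obtain ⟨w', h1, h2, -, h4⟩ := hSBW n w d t hw ht hdb A ε
  rw [h4 K (u n)]
  exact hu.2.1 n w' h1 (by omega)

/-- the symbol on a subset -/
theorem prd_sy (hSBW : T_SBW) {K : Type} [CommRing K] {a : ℕ} {u : (n : ℕ) → Wd n → K}
    {U : List ℕ → K} (hu : Sm a u U) {n : ℕ} {w : SWd n} {d : ℕ} {t : Fin d → ℕ}
    (hw : Knot w) (ht : Function.Injective t) (hdb : IsDb w t) (A : Finset (Fin d))
    (hA : A.card = a) : sy (cb (u n) w t) a A = U (rs (A.image t) (gauss w)) := by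
  obtain ⟨w', h1, h2, h3, h4⟩ := hSBW n w d t hw ht hdb A (fun _ => true)
  unfold sy
  rw [if_pos hA, h4 K (u n), hu.2.2 n w' h1 (by omega), h3]
  congr 1
  unfold rs
  refine List.filter_congr fun x _ => ?_
  rw [decide_eq_decide, Finset.mem_image]

theorem prd (hSBW : T_SBW) : T_PRD := by
  intro K _ a b u v U V hu hv
  have hBR := H25.LIN.pf_BR
  have hCAP := H60.LIN.pf_CAP H72.LIN.pf_CAI
  refine ⟨fun x y hxy hx => ?_, fun n w hw hlt => ?_, fun n w hw hdeg => ?_⟩
  · simp only
    rw [hu.1 x y hxy hx, hv.1 x y hxy hx]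
  · obtain ⟨t, ht, hdb⟩ := hBR.2 n w
    rw [hBR.1 K n _ w (dbl w) t (fun _ => true) ht hdb]
    refine (hCAP (Fin (dbl w)) K (cb (u n) w t) (cb (v n) w t) a b
      (prd_dg hSBW hu hw ht hdb) (prd_dg hSBW hv hw ht hdb)).1 univ _ ?_
    rw [Finset.card_univ, Fintype.card_fin]
    exact hlt
  · obtain ⟨t, ht, hdb⟩ := hBR.2 n w
    rw [hBR.1 K n _ w (dbl w) t (fun _ => true) ht hdb]
    have h1 := (hCAP (Fin (dbl w)) K (cb (u n) w t) (cb (v n) w t) a b
      (prd_dg hSBW hu hw ht hdb) (prd_dg hSBW hv hw ht hdb)).2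
    have h2 : Dif univ (cb (fun r => u n r * v n r) w t) (fun _ => true) =
        sy (fun ε => cb (u n) w t ε * cb (v n) w t ε) (a + b) univ := by
      unfold sy
      rw [if_pos]
      · rfl
      · rw [Finset.card_univ, Fintype.card_fin]
        exact hdeg
    rw [h2, h1, SF.mul_def]
    -- the letters
    have hT : (gauss w).toFinset = univ.image t := by
      ext k
      rw [List.mem_toFinset, H49.LIN.mem_gauss hw, ← hdb k, Finset.mem_image]
      simp
    rw [← Finset.sum_filter_of_ne (p := fun A : Finset (Fin (dbl w)) => A.card = a)]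
    · refine Finset.sum_nbij (fun A => A.image t) ?_ ?_ ?_ ?_
      · intro A hA
        rw [Finset.mem_filter] at hA
        rw [Finset.mem_powersetCard, hT, Finset.card_image_of_injective A ht]
        exact ⟨Finset.image_subset_image (Finset.subset_univ A), hA.2⟩
      · intro A _ B _ hAB
        exact Finset.image_injective ht hAB
      · intro J hJ
        have hJ' := Finset.mem_powersetCard.1 (Finset.mem_coe.1 hJ)
        rw [hT] at hJ'
        obtain ⟨A, -, hA⟩ := Finset.subset_image_iff.1 hJ'.1
        refine ⟨A, ?_, hA⟩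
        rw [Finset.mem_coe, Finset.mem_filter, Finset.mem_powerset]
        refine ⟨Finset.subset_univ A, ?_⟩
        rw [← Finset.card_image_of_injective A ht, hA]
        exact hJ'.2
      · intro A hA
        rw [Finset.mem_filter] at hA
        have hB : (univ \ A).card = b := by
          rw [Finset.card_sdiff_of_subset (Finset.subset_univ A), Finset.card_univ,
            Fintype.card_fin, hA.2]
          omega
        rw [prd_sy hSBW hu hw ht hdb A hA.2, prd_sy hSBW hv hw ht hdb _ hB,
          Finset.image_sdiff _ _ ht, hT]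
    · intro A _ hA
      by_contra hcon
      refine hA ?_
      have : sy (cb (u n) w t) a A = 0 := by
        unfold sy
        rw [if_neg hcon]
      rw [this, zero_mul]

end Pool.Agent.H63.PK
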