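import Pool.Agent.H63.PK.Targets
import Pool.Agent.H25.LIN.BR

/-!
# Board `pwk_modules`, row SBW: the cube of the resolutions and the words with fewer double points
-/

set_option autoImplicit false

open Finset

namespace Pool.Agent.H63.PK

open Pool.Agent.H59.LIN Pool.Agent.H13.LN
open Pool.Agent.H25.LIN Pool.Agent.H25.LIN.BRaux

/-- the double points outside `B` are resolved with the signs `η` -/
def prt {n : ℕ} (B : Finset ℕ) (η : ℕ → Bool) : ℕ → SWd n → SWd n
  | _, [] => []
  | k, (i, some b) :: w => (i, some b) :: prt B η (k + 1) w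
  | k, (i, none) :: w => (i, if k ∈ B then none else some (η k)) :: prt B η (k + 1) w

theorem prt_run {n : ℕ} (B : Finset ℕ) (η : ℕ → Bool) (w : SWd n) : ∀ (k : ℕ)
    (p : Fin (n + 1)), run (prt B η k w) p = run w p := by
  induction w with
  | nil => intro k p; rfl
  | cons a w ih =>
    intro k p
    obtain ⟨i, s⟩ := a
    rcases s with _ | b
    · change run (prt B η (k + 1) w) (tr i p) = run w (tr i p)
      exact ih _ _
    · change run (prt B η (k + 1) w) (tr i p) = run w (tr i p)
      exact ih _ _

theorem prt_meets {n : ℕ} (B : Finset ℕ) (η : ℕ → Bool) (w : SWd n) : ∀ (k : ℕ)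
    (p : Fin (n + 1)), meets k (prt B η k w) p = (meets k w p).filter fun x => decide (x ∈ B) := by
  induction w with
  | nil => intro k p; rfl
  | cons a w ih =>
    intro k p
    obtain ⟨i, s⟩ := a
    rcases s with _ | b
    · change (if (if k ∈ B then none else some (η k)) = none ∧ (p = i.castSucc ∨ p = i.succ)
        then [k] else []) ++ meets (k + 1) (prt B η (k + 1) w) (tr i p) =
        ((if (none : Option Bool) = none ∧ (p = i.castSucc ∨ p = i.succ) then [k] else []) ++
          meets (k + 1) w (tr i p)).filter _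
      rw [List.filter_append, ih]
      congr 1
      by_cases hp : p = i.castSucc ∨ p = i.succ
      · by_cases hk : k ∈ B
        · simp [hp, hk]
        · simp [hp, hk]
      · simp [hp]
    · change (if some b = none ∧ (p = i.castSucc ∨ p = i.succ)
        then [k] else []) ++ meets (k + 1) (prt B η (k + 1) w) (tr i p) =
        ((if (some b : Option Bool) = none ∧ (p = i.castSucc ∨ p = i.succ) then [k] else []) ++
          meets (k + 1) w (tr i p)).filter _
      rw [List.filter_append, ih]
      simp

theorem prt_dp {n : ℕ} (B : Finset ℕ) (η : ℕ → Bool) (w : SWd n) : ∀ k : ℕ,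
    dp k (prt B η k w) = (dp k w).filter fun x => x ∈ B := by
  induction w with
  | nil => intro k; simp [prt, dp]
  | cons a w ih =>
    intro k
    obtain ⟨i, s⟩ := a
    rcases s with _ | b
    · by_cases hk : k ∈ B
      · rw [prt, if_pos hk, dp, dp, ih, Finset.filter_insert, if_pos hk]
      · rw [prt, if_neg hk, dp, dp, ih, Finset.filter_insert, if_neg hk]
    · rw [prt, dp, dp, ih]

theorem prt_res {n : ℕ} (B : Finset ℕ) (η e : ℕ → Bool) (w : SWd n) : ∀ k : ℕ,
    res k (prt B η k w) e = res k w fun x => if x ∈ B then e x else η x := by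
  induction w with
  | nil => intro k; rfl
  | cons a w ih =>
    intro k
    obtain ⟨i, s⟩ := a
    rcases s with _ | b
    · by_cases hk : k ∈ B
      · rw [prt, if_pos hk, res, res, ih]
        simp [hk]
      · rw [prt, if_neg hk, res, res, ih]
        simp [hk]
    · rw [prt, res, res, ih]
      rfl

theorem pus_apply {α : Type} [Fintype α] {t : α → ℕ} (ht : Function.Injective t)
    (ε : α → Bool) (a : α) : pus t ε (t a) = ε a := by
  rw [Bool.eq_iff_iff]
  unfold pus
  constructor
  · intro h
    obtain ⟨b, hb, hb2⟩ := of_decide_eq_true h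
    rwa [ht hb] at hb2
  · exact fun h => decide_eq_true ⟨a, rfl, h⟩

theorem sbw : T_SBW := by
  intro n w d t hw ht hdb A ε
  have hdp : ∀ x, x ∈ dp 0 w ↔ ∃ a, t a = x := by
    intro x
    rw [mem_dp, hdb x]
    constructor
    · rintro ⟨m, i, h1, h2⟩
      rw [zero_add] at h1
      rw [h1]
      exact ⟨i, h2⟩
    · rintro ⟨i, h⟩
      exact ⟨x, i, (zero_add x).symm, h⟩
  obtain ⟨B, hB⟩ : ∃ B : Finset ℕ, B = A.image t := ⟨_, rfl⟩
  have hBdp : (dp 0 w).filter (fun x => x ∈ B) = B := by
    ext x
    rw [Finset.mem_filter, hdp x, hB, Finset.mem_image]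
    constructor
    · exact fun h => h.2
    · rintro ⟨a, ha, rfl⟩
      exact ⟨⟨a, rfl⟩, a, ha, rfl⟩
  have hrun : run (prt B (pus t ε) 0 w) = run w := funext fun p => prt_run B _ w 0 p
  refine ⟨prt B (pus t ε) 0 w, ?_, ?_, ?_, ?_⟩
  · intro p
    rw [hrun]
    exact hw p
  · rw [← card_dp _ 0, prt_dp, hBdp, hB, Finset.card_image_of_injective A ht]
  · unfold gauss
    rw [List.filter_flatMap, hrun]
    refine congrArg (fun f => List.flatMap f _) ?_
    funext j
    rw [prt_meets]
    refine List.filter_congr fun x _ => ?_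
    rw [decide_eq_decide, hB, Finset.mem_image]
  · intro K _ v
    rw [ext_eq v _ 0 [], prt_dp, hBdp]
    unfold Dif cb
    refine Finset.sum_nbij' (fun S => S.image t) (fun T => A.filter fun a => t a ∈ T) ?_ ?_ ?_ ?_ ?_
    · intro S hS
      rw [Finset.mem_powerset, hB]
      exact Finset.image_subset_image (Finset.mem_powerset.1 hS)
    · intro T _
      exact Finset.mem_powerset.2 (Finset.filter_subset _ _)
    · intro S hS
      ext a
      simp only [Finset.mem_filter, Finset.mem_image]
      constructor
      · rintro ⟨_, b, hb, hab⟩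
        rwa [← ht hab]
      · intro h
        exact ⟨Finset.mem_powerset.1 hS h, a, h, rfl⟩
    · intro T hT
      ext x
      simp only [Finset.mem_filter, Finset.mem_image]
      constructor
      · rintro ⟨a, ⟨_, ha⟩, rfl⟩
        exact ha
      · intro hx
        have h1 := Finset.mem_powerset.1 hT hx
        rw [hB, Finset.mem_image] at h1
        obtain ⟨a, ha, rfl⟩ := h1
        exact ⟨a, ⟨ha, hx⟩, rfl⟩
    · intro S hS
      rw [Finset.card_image_of_injective S ht, List.nil_append, prt_res]
      congr 2
      refine res_congr w 0 _ _ fun x hx => ?_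
      obtain ⟨a, rfl⟩ := (hdp x).1 hx
      rw [pus_apply ht]
      have h1 : t a ∈ B ↔ a ∈ A := by
        rw [hB, Finset.mem_image]
        constructor
        · rintro ⟨b, hb, hab⟩
          rwa [← ht hab]
        · exact fun h => ⟨a, h, rfl⟩
      have h2 : t a ∈ S.image t ↔ a ∈ S := by
        rw [Finset.mem_image]
        constructor
        · rintro ⟨b, hb, hab⟩
          rwa [← ht hab]
        · exact fun h => ⟨a, h, rfl⟩
      by_cases ha : a ∈ A
      · rw [if_pos ha, if_pos (h1.2 ha), decide_eq_decide, h2]
      · rw [if_neg ha, if_neg (fun h => ha (h1.1 h)), pus_apply ht]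

end Pool.Agent.H63.PK
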