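import Pool.Agent.H63.PK.Targets

/-!
# Board `pwk_modules`, row SLD: closed words may be moved
-/

set_option autoImplicit false

open Finset

namespace Pool.Agent.H63.PK

open Pool.Agent.H59.LIN Pool.Agent.H13.LN

theorem sld_perm {d : ℕ} {l l' : List ℕ} (h : l'.Perm l) (hl : Gw d l) : Gw d l' := by
  refine ⟨h.length_eq.trans hl.1, fun a ha => ?_⟩
  rw [h.count_eq a]
  exact hl.2 a (h.mem_iff.1 ha)

/-- a letter which occurs twice -/
theorem sld_split {l : List ℕ} {c : ℕ} (h : l.count c = 2) :
    ∃ P B Q : List ℕ, l = P ++ c :: (B ++ c :: Q) ∧ c ∉ P ∧ c ∉ B ∧ c ∉ Q := by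
  have h1 : c ∈ l := List.count_pos_iff.1 (by omega)
  obtain ⟨P, l1, rfl, hP⟩ := List.eq_append_cons_of_mem h1
  rw [List.count_append, List.count_cons_self, List.count_eq_zero_of_not_mem hP] at h
  have h2 : c ∈ l1 := List.count_pos_iff.1 (by omega)
  obtain ⟨B, Q, rfl, hB⟩ := List.eq_append_cons_of_mem h2
  rw [List.count_append, List.count_cons_self, List.count_eq_zero_of_not_mem hB] at h
  refine ⟨P, B, Q, rfl, hP, hB, ?_⟩
  rw [← List.count_eq_zero]
  omega

theorem sld1 {M : Type} [AddCommGroup M] {d : ℕ} {W : List ℕ → M} (hW : WS d W)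
    (u l v : List ℕ) (a : ℕ) (hl : Clo l) (hG : Gw d (u ++ a :: (l ++ v))) :
    W (u ++ a :: (l ++ v)) = W (u ++ (l ++ a :: v)) := by
  obtain ⟨D, hD⟩ : ∃ D : ℕ → M, ∀ X Y : List ℕ, l = X ++ Y →
      D X.length = W (u ++ (X ++ a :: (Y ++ v))) := by
    refine ⟨fun i => W (u ++ (l.take i ++ a :: (l.drop i ++ v))), ?_⟩
    intro X Y h
    simp only
    rw [h, List.take_left, List.drop_left]
  have h0 : D 0 = W (u ++ a :: (l ++ v)) := hD [] l rfl
  have h1 : D l.length = W (u ++ (l ++ a :: v)) := hD l [] (List.append_nil l).symm
  rw [← h0, ← h1]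
  have h2 : ∑ i ∈ range l.length, (D (i + 1) - D i) = D l.length - D 0 :=
    Finset.sum_range_sub D l.length
  have h3 : ∑ i ∈ range l.length, (D (i + 1) - D i) = 0 := by
    rw [← Finset.sum_fiberwise_of_maps_to (s := range l.length) (t := l.toFinset)
      (g := fun i => l.getD i 0)]
    · refine Finset.sum_eq_zero fun c hc => ?_
      obtain ⟨P, B, Q, hPBQ, hP, hB, hQ⟩ := sld_split (hl c (List.mem_toFinset.1 hc))
      have hset : (range l.length).filter (fun i => l.getD i 0 = c) =
          {P.length, P.length + 1 + B.length} := by
        ext i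
        simp only [Finset.mem_filter, Finset.mem_range, Finset.mem_insert, Finset.mem_singleton]
        rw [hPBQ]
        simp only [List.length_append, List.length_cons]
        constructor
        · rintro ⟨h4, h5⟩
          rcases lt_trichotomy i P.length with h6 | h6 | h6
          · exfalso
            rw [List.getD_append _ _ _ _ h6, List.getD_eq_getElem _ _ h6] at h5
            exact hP (h5 ▸ List.getElem_mem h6)
          · exact Or.inl h6
          · right
            rw [List.getD_append_right _ _ _ _ (by omega)] at h5
            obtain ⟨j, hj⟩ : ∃ j, i - P.length = j + 1 := ⟨i - P.length - 1, by omega⟩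
            rw [hj, List.getD_cons_succ] at h5
            rcases lt_trichotomy j B.length with h7 | h7 | h7
            · exfalso
              rw [List.getD_append _ _ _ _ h7, List.getD_eq_getElem _ _ h7] at h5
              exact hB (h5 ▸ List.getElem_mem h7)
            · omega
            · exfalso
              rw [List.getD_append_right _ _ _ _ (by omega)] at h5
              obtain ⟨k, hk⟩ : ∃ k, j - B.length = k + 1 := ⟨j - B.length - 1, by omega⟩
              have h8 : k < Q.length := by omega
              rw [hk, List.getD_cons_succ, List.getD_eq_getElem _ _ h8] at h5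
              exact hQ (h5 ▸ List.getElem_mem h8)
        · rintro (h4 | h4)
          · refine ⟨by omega, ?_⟩
            rw [List.getD_append_right _ _ _ _ (by omega), h4, Nat.sub_self, List.getD_cons_zero]
          · refine ⟨by omega, ?_⟩
            rw [List.getD_append_right _ _ _ _ (by omega)]
            have h5 : i - P.length = B.length + 1 := by omega
            rw [h5, List.getD_cons_succ, List.getD_append_right _ _ _ _ le_rfl, Nat.sub_self,
              List.getD_cons_zero]
      rw [hset, Finset.sum_pair (by omega)]
      have e1 := hD P (c :: (B ++ c :: Q)) hPBQ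
      have e2 := hD (P ++ [c]) (B ++ c :: Q) (by rw [hPBQ]; simp)
      have e3 := hD (P ++ c :: B) (c :: Q) (by rw [hPBQ]; simp)
      have e4 := hD (P ++ c :: B ++ [c]) Q (by rw [hPBQ]; simp)
      have n2 : (P ++ [c]).length = P.length + 1 := by simp
      have n3 : (P ++ c :: B).length = P.length + 1 + B.length := by simp; omega
      have n4 : (P ++ c :: B ++ [c]).length = P.length + 1 + B.length + 1 := by simp; omega
      rw [n2] at e2
      rw [n3] at e3
      rw [n4] at e4
      rw [e1, e2, e3, e4]
      have h9 := hW.four (u ++ P) B (Q ++ v) c a ?_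
      · simp only [List.append_assoc, List.cons_append, List.nil_append] at h9 ⊢
        rw [← h9]
        abel
      · refine sld_perm ?_ hG
        rw [hPBQ]
        simp only [List.append_assoc, List.cons_append]
        refine List.Perm.append_left u ?_
        refine List.Perm.trans ?_ (List.perm_middle (a := a) (l₁ := P))
        exact List.Perm.append_left P (List.Perm.swap _ _ _)
    · intro i hi
      have hi' := Finset.mem_range.1 hi
      rw [List.getD_eq_getElem _ _ hi', List.mem_toFinset]
      exact List.getElem_mem hi'
  rw [h3] at h2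
  exact (sub_eq_zero.1 h2.symm).symm

theorem sld2 {M : Type} [AddCommGroup M] {d : ℕ} {W : List ℕ → M} (hW : WS d W)
    (l : List ℕ) (hl : Clo l) (v : List ℕ) : ∀ (m u : List ℕ), Gw d (u ++ (l ++ (m ++ v))) →
    W (u ++ (l ++ (m ++ v))) = W (u ++ (m ++ (l ++ v))) := by
  intro m
  induction m with
  | nil => intro u _; rfl
  | cons a m ih =>
    intro u hG
    have h1 : Gw d (u ++ a :: (l ++ (m ++ v))) := by
      refine sld_perm ?_ hG
      refine List.Perm.append_left u ?_
      exact (List.perm_middle (a := a) (l₁ := l) (l₂ := m ++ v)).symm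
    have h2 := sld1 hW u l (m ++ v) a hl h1
    rw [List.cons_append, ← h2]
    have h3 := ih (u ++ [a]) (by
      simp only [List.append_assoc, List.cons_append, List.nil_append]
      exact h1)
    simp only [List.append_assoc, List.cons_append, List.nil_append] at h3 ⊢
    exact h3

theorem sld_rot {M : Type} [AddCommGroup M] {d : ℕ} {W : List ℕ → M} (hW : WS d W) :
    ∀ s t : List ℕ, Gw d (s ++ t) → W (s ++ t) = W (t ++ s) := by
  intro s
  induction s with
  | nil => intro t _; rw [List.nil_append, List.append_nil]
  | cons a s ih =>
    intro t hG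
    rw [List.cons_append, ← hW.rot a (s ++ t) hG, List.append_assoc]
    rw [ih (t ++ [a]) (by
      refine sld_perm ?_ hG
      rw [← List.append_assoc]
      exact List.perm_append_comm), List.append_assoc]
    rfl

theorem sld : T_SLD := by
  intro M _ d W hW
  refine ⟨fun u l v a => sld1 hW u l v a, fun u l m v hl _ => sld2 hW l hl v m u, ?_⟩
  intro u l v a hl hG
  have h1 : Gw d (a :: (l ++ (v ++ u))) := by
    refine sld_perm ?_ hG
    rw [← List.append_assoc, ← List.cons_append, ← List.cons_append]
    exact List.perm_append_comm
  rw [sld_rot hW u _ hG]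
  have h2 := hW.rot a (l ++ (v ++ u)) h1
  have h3 : Clo (v ++ u) := by
    intro c hc
    have h4 := hG.2 c (by
      rcases List.mem_append.1 hc with h | h
      · exact List.mem_append_right _ (List.mem_append_right _ h)
      · exact List.mem_append_left _ h)
    have h5 : c ∉ a :: l := by
      intro h
      have h6 := hl c h
      have h7 : 0 < (v ++ u).count c := List.count_pos_iff.2 hc
      rw [List.count_append] at h4 h7
      rw [List.count_append] at h4
      omega
    rw [List.count_append, List.count_append, List.count_eq_zero_of_not_mem h5] at h4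
    rw [List.count_append]
    omega
  have h4 : Gw d (l ++ a :: ((v ++ u) ++ [])) := by
    rw [List.append_nil]
    refine sld_perm ?_ h1
    exact List.perm_middle
  have h5 := sld1 hW l (v ++ u) [] a h3 h4
  rw [List.append_nil] at h5 h4
  have h6 : a :: l ++ v ++ u = a :: (l ++ (v ++ u)) := by simp
  rw [h6, ← h2, List.append_assoc, ← h5]
  have h7 := sld_rot hW (l ++ a :: v) u (by
    rw [List.append_assoc]
    exact h4)
  rw [List.append_assoc, List.cons_append] at h7
  rw [h7]
  simp

end Pool.Agent.H63.PK
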