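import Pool.Agent.H63.PK.Targets
import Pool.Agent.H33.LIN.CAB
import Pool.Agent.H49.LIN.CMC
import Pool.Agent.H11.LNT.EXA

/-!
# Board `pwk_modules`, row TOP: the coefficients of the exponential are induced
-/

set_option autoImplicit false

open Finset

namespace Pool.Agent.H63.PK

open Pool.Agent.H59.LIN Pool.Agent.H13.LN

theorem top_gw {n : ℕ} {w : SWd n} (hw : Knot w) : Gw (dbl w) (gauss w) := by
  refine ⟨H49.LIN.length_gauss hw, fun a ha => ?_⟩
  rw [H49.LIN.count_gauss hw, if_pos ((H49.LIN.mem_gauss hw a).1 ha)]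

theorem top_choose (x : ℤ) (k : ℕ) :
    ((k : ℤ) + 1) * Ring.choose x (k + 1) = (x - k) * Ring.choose x k := by
  have h1 := H33.LIN.cab_ch x (k + 1)
  have h2 := H33.LIN.cab_ch x k
  rw [Finset.prod_range_succ, ← h2, Nat.factorial_succ] at h1
  have h3 : ((k.factorial : ℕ) : ℤ) ≠ 0 := by exact_mod_cast Nat.factorial_ne_zero k
  refine mul_left_cancel₀ h3 ?_
  push_cast at h1
  linear_combination h1

theorem ext_const {n : ℕ} (c : ℤ) : ∀ (w : SWd n) (u : Wd n),
    ext (fun _ : Wd n => c) u w = if dbl w = 0 then c else 0 := by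
  intro w
  induction w with
  | nil => intro u; rfl
  | cons x w ih =>
    intro u
    obtain ⟨i, s⟩ := x
    cases s with
    | none =>
      have h1 : dbl ((i, none) :: w) ≠ 0 := by
        unfold dbl
        rw [List.countP_cons]
        simp
      rw [if_neg h1]
      change ext _ _ w - ext _ _ w = 0
      rw [ih, ih, sub_self]
    | some b =>
      have h1 : dbl ((i, some b) :: w) = dbl w := by
        unfold dbl
        rw [List.countP_cons]
        simp
      rw [h1]
      change ext _ _ w = _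
      rw [ih]

theorem ext_sub_const {n : ℕ} (F : Wd n → ℤ) (c : ℤ) (w : SWd n) (hw : dbl w ≠ 0) :
    ext (fun r => F r - c) [] w = ext F [] w := by
  have h1 := H11.LNT.ext_sub' F (fun _ => c) w []
  rw [ext_const, if_neg hw, sub_zero] at h1
  exact h1

theorem ext_mul_const {n : ℕ} (F : Wd n → ℤ) (c : ℤ) (w : SWd n) :
    ext (fun r => c * F r) [] w = c * ext F [] w :=
  H11.LNT.exa.2.2.2.2.2.2 ℤ ℤ (AddMonoidHom.mulLeft c) n F [] w

/-- subtraction of a constant does not change the symbol in positive degree -/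
theorem sm_sub {d : ℕ} (hd : 0 < d) {v : (n : ℕ) → Wd n → ℤ} {W : List ℕ → ℤ} (h : Sm d v W)
    (c : ℤ) : Sm d (fun n w => v n w - c) W := by
  refine ⟨fun x y hxy hx => ?_, fun n w hw hlt => ?_, fun n w hw hdb => ?_⟩
  · simp only
    rw [h.1 x y hxy hx]
  · rw [ext_sub_const _ _ _ (by omega)]
    exact h.2.1 n w hw hlt
  · rw [ext_sub_const _ _ _ (by omega)]
    exact h.2.2 n w hw hdb

/-- the product of the binomial coefficients -/
noncomputable def wα {r : ℕ → ℕ} (v : (Σ d : ℕ, Fin (r d)) → (n : ℕ) → Wd n → ℤ)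
    (α : (Σ d : ℕ, Fin (r d)) →₀ ℕ) (n : ℕ) (w : Wd n) : ℤ :=
  α.prod fun j m => Ring.choose (v j n w) m

theorem wα_zero {r : ℕ → ℕ} (v : (Σ d : ℕ, Fin (r d)) → (n : ℕ) → Wd n → ℤ) (n : ℕ) (w : Wd n) :
    wα v 0 n w = 1 := Finsupp.prod_zero_index

theorem wα_succ {r : ℕ → ℕ} (v : (Σ d : ℕ, Fin (r d)) → (n : ℕ) → Wd n → ℤ)
    (β : (Σ d : ℕ, Fin (r d)) →₀ ℕ) (j : Σ d : ℕ, Fin (r d)) (n : ℕ) (w : Wd n) :
    ((β j : ℤ) + 1) * wα v (β + Finsupp.single j 1) n w = (v j n w - β j) * wα v β n w := by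
  classical
  obtain ⟨S, hS⟩ : ∃ S : Finset (Σ d : ℕ, Fin (r d)), S = insert j β.support := ⟨_, rfl⟩
  have hj : j ∈ S := by rw [hS]; exact Finset.mem_insert_self _ _
  have h1 : ∀ i, Ring.choose (v i n w) 0 = 1 := fun i => Ring.choose_zero_right _
  have e1 : wα v β n w = ∏ i ∈ S, Ring.choose (v i n w) (β i) := by
    unfold wα
    refine Finsupp.prod_of_support_subset β ?_ _ fun i _ => h1 i
    rw [hS]
    exact Finset.subset_insert _ _
  have e2 : wα v (β + Finsupp.single j 1) n w =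
      ∏ i ∈ S, Ring.choose (v i n w)
        ((β + Finsupp.single j 1 : (Σ d : ℕ, Fin (r d)) →₀ ℕ) i) := by
    unfold wα
    refine Finsupp.prod_of_support_subset _ ?_ _ fun i _ => h1 i
    intro i hi
    rw [hS]
    by_cases hij : i = j
    · rw [hij]
      exact Finset.mem_insert_self _ _
    · refine Finset.mem_insert_of_mem ?_
      rw [Finsupp.mem_support_iff] at hi ⊢
      rwa [Finsupp.add_apply, Finsupp.single_eq_of_ne hij, add_zero] at hi
  rw [e1, e2, ← Finset.mul_prod_erase S _ hj, ← Finset.mul_prod_erase S _ hj]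
  have e3 : ∏ i ∈ S.erase j, Ring.choose (v i n w)
      ((β + Finsupp.single j 1 : (Σ d : ℕ, Fin (r d)) →₀ ℕ) i) =
      ∏ i ∈ S.erase j, Ring.choose (v i n w) (β i) := by
    refine Finset.prod_congr rfl fun i hi => ?_
    rw [Finsupp.add_apply, Finsupp.single_eq_of_ne (Finset.ne_of_mem_erase hi), add_zero]
  rw [e3, Finsupp.add_apply, Finsupp.single_eq_same, ← mul_assoc, ← mul_assoc,
    top_choose]

theorem top_weight {r : ℕ → ℕ} (β : (Σ d : ℕ, Fin (r d)) →₀ ℕ) (j : Σ d : ℕ, Fin (r d)) :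
    Finsupp.weight (wv r) (β + Finsupp.single j 1) = j.1 + Finsupp.weight (wv r) β := by
  rw [map_add, Finsupp.weight_single, one_smul, add_comm]
  rfl

theorem top_all (hPRD : T_PRD) (hEXD : T_EXD)
    (r : ℕ → ℕ) (x : (d : ℕ) → Fin (r d) → List ℕ → ℤ) (hr : r 0 = 0)
    (v : (Σ d : ℕ, Fin (r d)) → (n : ℕ) → Wd n → ℤ)
    (hv : ∀ j : (Σ d : ℕ, Fin (r d)), Sm j.1 (v j) (x j.1 j.2)) (hE : Ex (gx x) [] = 1) :
    ∀ (k : ℕ) (α : (Σ d : ℕ, Fin (r d)) →₀ ℕ), α.degree = k →
      Sm (Finsupp.weight (wv r) α) (wα v α) (fun l => MvPolynomial.coeff α (Ex (gx x) l)) := by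
  intro k
  induction k with
  | zero =>
    intro α hα
    have h0 : α = 0 := (Finsupp.degree_eq_zero_iff α).1 hα
    subst h0
    rw [map_zero]
    refine ⟨fun x y _ _ => ?_, fun n w _ hlt => ?_, fun n w hw hdb => ?_⟩
    · rw [wα_zero, wα_zero]
    · have h1 : wα v 0 n = fun _ => (1 : ℤ) := funext fun w => wα_zero v n w
      rw [h1, ext_const, if_neg (by omega)]
    · have h1 : wα v 0 n = fun _ => (1 : ℤ) := funext fun w => wα_zero v n w
      have h2 := (top_gw hw).1
      rw [hdb, mul_zero] at h2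
      rw [h1, ext_const, if_pos hdb, List.length_eq_zero_iff.1 h2]
      change 1 = MvPolynomial.coeff 0 (Ex (gx x) [])
      rw [hE, MvPolynomial.coeff_zero_one]
  | succ k ih =>
    intro α hα
    have h1 : α ≠ 0 := by
      rintro rfl
      rw [map_zero] at hα
      omega
    obtain ⟨j, hj⟩ : ∃ j, α j ≠ 0 := by
      by_contra hcon
      push Not at hcon
      exact h1 (Finsupp.ext hcon)
    obtain ⟨β, rfl⟩ : ∃ β, α = β + Finsupp.single j 1 := by
      refine ⟨α - Finsupp.single j 1, (tsub_add_cancel_of_le ?_).symm⟩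
      rw [Finsupp.single_le_iff]
      omega
    have h2 : β.degree = k := by
      rw [map_add, Finsupp.degree_single] at hα
      omega
    have hj0 : 0 < j.1 := by
      rcases Nat.eq_zero_or_pos j.1 with h | h
      · exfalso
        obtain ⟨e, i⟩ := j
        subst h
        exact (Fin.cast hr i).elim0
      · exact h
    have h3 := hPRD ℤ j.1 _ _ _ _ _ (sm_sub hj0 (hv j) (β j)) (ih β h2)
    rw [top_weight]
    have hne : ((β j : ℤ) + 1) ≠ 0 := by positivity
    have h4 : (fun (n : ℕ) (w : Wd n) => (v j n w - (β j : ℤ)) * wα v β n w) =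
        fun n w => ((β j : ℤ) + 1) * wα v (β + Finsupp.single j 1) n w := by
      funext n w
      exact (wα_succ v β j n w).symm
    rw [h4] at h3
    refine ⟨fun y z hyz hy => ?_, fun n w hw hlt => ?_, fun n w hw hdb => ?_⟩
    · exact mul_left_cancel₀ hne (h3.1 y z hyz hy)
    · have h5 := h3.2.1 n w hw hlt
      rw [ext_mul_const] at h5
      exact (mul_eq_zero.1 h5).resolve_left hne
    · have h5 := h3.2.2 n w hw hdb
      rw [ext_mul_const] at h5
      refine mul_left_cancel₀ hne ?_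
      rw [h5]
      have h6 : Gw (j.1 + Finsupp.weight (wv r) β) (gauss w) := by
        rw [← hdb]
        exact top_gw hw
      exact hEXD ℤ r x _ (gauss w) j.1 j.2 β hj0 h6

theorem top (hPRD : T_PRD) (hEXD : T_EXD) (hEXP : T_EXP) : T_TOP := by
  have _ := hEXP
  intro r x hr _ hI α
  choose v hv using hI
  refine ⟨wα (fun j => v j.1 j.2) α, ?_⟩
  refine top_all hPRD hEXD r x hr (fun j => v j.1 j.2) (fun j => hv j.1 j.2) ?_ _ α rfl
  unfold Ex
  rw [List.toFinset_nil, Es, dif_neg Finset.not_nonempty_empty]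

end Pool.Agent.H63.PK
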