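import Pool.Agent.H2.PK.ALG
import Pool.Agent.H2.PK.AUT
import Pool.Agent.H75.PK.BSF
import Pool.Agent.H67.PK.BSR
import Pool.Agent.H75.PK.ESA
import Pool.Agent.H13.PK.ESB
import Pool.Agent.H75.PK.ESC
import Pool.Agent.H68.PK.EXD
import Pool.Agent.H1.PK.EXH
import Pool.Agent.H74.PK.EXP
import Pool.Agent.H63.PK.FUN
import Pool.Agent.H62.PK.GXP
import Pool.Agent.H67.PK.HMG
import Pool.Agent.H62.PK.IDL
import Pool.Agent.H13.PK.ISO
import Pool.Agent.H79.PK.LAM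
import Pool.Agent.H19.PK.LFW
import Pool.Agent.H67.PK.POL
import Pool.Agent.H63.PK.PRD
import Pool.Agent.H63.PK.SBW
import Pool.Agent.H63.PK.SLD
import Pool.Agent.H75.PK.TFL
import Pool.Agent.H1.PK.THE
import Pool.Agent.H63.PK.TOP
import Pool.Agent.H80.PK.TWB
import Pool.Agent.H63.PK.Asm
import Pool.Agent.H63.PK.POP
import Pool.Agent.H63.PK.LOC
import Pool.Agent.H63.PK.BIP
import Pool.Agent.H13.LN.Fin

/-!
# Primitive weight systems and Lin's question (`MP_559314_gt`): the theorem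
-/

set_option autoImplicit false

namespace Pool.Agent.H63.PK

open Pool.Agent.H59.LIN Pool.Agent.H13.LN

theorem h_alg : T_ALG := H2.PK.alg

theorem h_esa : T_ESA := H75.PK.esa

theorem h_esb : T_ESB := H13.PK.esb h_esa

theorem h_esc : T_ESC := H75.PK.esc h_esa

theorem h_exp : T_EXP := H74.PK.exp_row h_esa h_esb

theorem h_gxp : T_GXP := H62.PK.gxp

theorem h_exh : T_EXH := H1.PK.exh h_esb h_esc

theorem h_exd : T_EXD := H68.PK.exd h_esb h_esc

theorem h_fun : T_FUN := fun_row sld h_alg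

theorem h_the : T_THE := H1.PK.the_row h_alg h_esc h_exp h_gxp H2.PK.aut

theorem h_iso : T_ISO := H13.PK.iso h_alg

theorem h_pol : T_POL := H67.PK.pol h_alg h_the h_iso

theorem h_lam : T_LAM := H79.PK.lam h_fun h_exp h_gxp h_exh h_the h_iso

theorem h_hmg : T_HMG := H67.PK.hmg

theorem h_bsf : T_BSF := H75.PK.bsf

theorem h_bsr : T_BSR := H67.PK.bsr h_hmg

theorem h_tfl : T_TFL := H75.PK.tfl

theorem h_prd : T_PRD := prd sbw

theorem h_idl : T_IDL := H62.PK.idl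

theorem h_top : T_TOP := top h_prd h_exd h_exp

theorem h_lfw : T_LFW := H19.PK.lfw h_bsf h_lam h_exp h_gxp h_exh h_top h_idl

theorem h_twb : T_TWB :=
  H80.PK.twb h_fun h_alg h_exp h_gxp h_exh h_the h_iso h_hmg h_bsr h_tfl

theorem h_sys : T_SYS ∧ T_VFC := by
  have hRUN : T_RUN := H72.LNT.run
  have hEXA : T_EXA := H11.LNT.exa
  have hFCC : T_FCC := H24.LNT.fcc hEXA
  have hFGL : T_FGL := H60.LNT.fgl hEXA
  have hFLA : T_FLA := H59.LNT.pf_FLA hRUN hFCC H59.LNT.pf_FLO H59.LNT.pf_FFO hFGL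
  have hEQC : T_EQC := H98.LNT.eqc hRUN
  have hSUR : T_SUR := H31.LNT.sur hRUN
  have hXC : T_XC := H46.LNT.xc hRUN hEQC hSUR H59.LNT.pf_COX
  have hPRL : T_PRL := H73.LNT.prl hRUN
  have hNF : T_NF := H59.LNT.pf_NF hRUN hPRL hXC
  have hEVA : T_EVA := H73.LNT.eva hRUN
  have hEVP : T_EVP := H73.LNT.evp hRUN hEVA hPRL
  have hBLV : T_BLV := H99.LNT.blv hRUN hEVA hEVP hPRL
  have hGAU : T_GAU := H70.LNT.gau hRUN hEVA hBLV
  have hGEQ : T_GEQ := H42.LNT.geq hRUN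
  have hC1 : T_C1 := H35.LNT.c1 hRUN hEQC hSUR hPRL hNF hEVP hBLV hGEQ
  have hC2 : T_C2 := H39.LNT.c2 hRUN hSUR hEVA
  have hBL2 : T_BL2 := H34.LNT.bl2 hRUN
  have hHEX : T_HEX := H34.LNT.hex hC1 hBLV
  have hHRO : T_HRO := H34.LNT.hro hC2 hBL2 hBLV
  have hHRK : T_HRK := H31.LNT.hrk hRUN hC2 hBL2 hBLV hEVA
  have hHEM : T_HEM := H34.LNT.hem hRUN hC2 hBL2 hBLV hEVA
  have hHSW : T_HSW := H7.LNT.hsw hRUN hC2 hBL2 hEVA
  have hHKI : T_HKI := H42.LNT.hki hRUN hC2 hBL2 hBLV hEVA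
  have hHFO : T_HFO := H74.LNT.hfo hRUN hC2 hBL2 hBLV hEVA
  have hFUL : T_FUL := H68.LNT.ful H78.LNT.spl
  have hPRM : T_PRM := H26.LNT.prm hFUL
  have hWSA : T_WSA := H25.LNT.wsa hFUL hPRM
  have hSYM : Pool.Agent.H13.LN.T_SYM := H63.LNT.sym hFLA hHEX hHRO hHRK hHEM hHSW hHKI hHFO hWSA H45.LNT.wsi
    H11.LNT.wsf hGAU hRUN hBLV
  have hREA : Pool.Agent.H13.LN.T_REA := H31.LNT.rea hC2 hBL2 hGAU hRUN
  have hVFC : T_VFC := H25.LNT.vfc hRUN hEXA
  exact ⟨H29.LNT.sys hSYM hREA hGAU H99.LNT.fgc H49.LNT.wsc hVFC hEXA hRUN, hVFC⟩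

/-- torsion of the chord diagrams, torsion of the indecomposables and lifting of primitive weight
systems, degree by degree -/
theorem tor (p : ℕ) (hp : p.Prime) (n : ℕ) : List.TFAE [
    ∀ d ≤ n, ∀ x : Chd d, p • x = 0 → x = 0,
    ∀ d ≤ n, ∀ x : Ind d, p • x = 0 → x = 0,
    ∀ d ≤ n, LiftP p d] := by
  tfae_have 1 → 2 := by
    intro h d
    induction d using Nat.strong_induction_on with
    | _ d ih =>
      intro hd
      exact h_twb p hp d (fun e he => ih e he (by omega)) ((chd_lift h_tfl p hp d).1 (h d hd))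
  tfae_have 2 → 3 := fun h d hd => (ind_lift h_hmg h_tfl p hp d).1 (h d hd)
  tfae_have 3 → 1 := fun h d hd => (chd_lift h_tfl p hp d).2 ((h_lfw p hp n).1 h d hd)
  tfae_finish

theorem final (P : Set ℕ) (hP : ∀ p ∈ P, p.Prime) (hne : P.Nonempty) : List.TFAE [
    ∀ (R : Type) [CommRing R], (∀ q : ℕ, q.Prime → q ∉ P → IsUnit (q : R)) → Yes R,
    Yes ℚ ∧ ∀ p ∈ P, Yes (ZMod p),
    ∀ p ∈ P, ∀ d, LiftPI p d,
    Yes ℚ ∧ ∀ p ∈ P, ∀ d, LiftP p d,
    Yes ℚ ∧ ∀ p ∈ P, ∀ (d : ℕ) (x : Ind d), p • x = 0 → x = 0,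
    Yes ℚ ∧ ∀ (R : Type) [CommRing R], (∀ q : ℕ, q.Prime → q ∉ P → IsUnit (q : R)) →
      IsPoly R] := by
  have hF := (fin P hP).out 0 2
  have hF1 := (fin P hP).out 0 1
  have hI := ind_lift h_hmg h_tfl
  tfae_have 1 → 4 := by
    intro h
    obtain ⟨h1, h2⟩ := hF.1 h
    refine ⟨h1, fun p hp d => ?_⟩
    have h9 := (tor p (hP p hp) d).out 0 2
    exact h9.1 (fun e _ x => h2 e x p hp) d le_rfl
  tfae_have 4 → 1 := by
    rintro ⟨h1, h2⟩
    refine hF.2 ⟨h1, fun d x p hp => ?_⟩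
    have h9 := (tor p (hP p hp) d).out 0 2
    exact h9.2 (fun e _ => h2 p hp e) d le_rfl x
  tfae_have 4 ↔ 5 := by
    refine and_congr_right fun _ => forall_congr' fun p => forall_congr' fun hp =>
      forall_congr' fun d => (hI p (hP p hp) d).symm
  tfae_have 1 ↔ 2 := hF1
  tfae_have 1 → 3 := by
    intro h p hp d
    refine loc h_sys.1 h_sys.2 p (hP p hp) (h (Zp p (hP p hp)) fun q hq hqP => ?_) d ?_
    · refine zp_unit p (hP p hp) q hq ?_
      rintro rfl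
      exact hqP hp
    · exact (tfae_1_to_4 h).2 p hp d
  tfae_have 3 → 1 := by
    intro h R _ hR d W hW
    refine bip h_tfl h_idl P hP hne d (fun p hp => ?_) R hR W hW
    exact (h_lfw p (hP p hp) d).2 (fun e _ => h p hp e) d le_rfl
  tfae_have 5 → 6 := by
    rintro ⟨h1, h2⟩
    refine ⟨h1, fun R _ hR => h_pol R fun d => h_bsr R d fun q hq => ?_⟩
    by_cases hqP : q ∈ P
    · exact Or.inr (h2 q hqP d)
    · exact Or.inl (hR q hq hqP)
  tfae_have 6 → 1 := by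
    rintro ⟨h1, h2⟩
    refine hF.2 ⟨h1, fun d x p hp hx => ?_⟩
    refine pop h_alg h_fun p (hP p hp) (h2 _ fun q hq hqP => ?_) d x hx
    refine zp_unit p (hP p hp) q hq ?_
    rintro rfl
    exact hqP hp
  tfae_finish

/-- realization in the degrees at most `n` -/
theorem final2 (P : Set ℕ) (hP : ∀ p ∈ P, p.Prime) (hne : P.Nonempty) (n : ℕ)
    (h : ∀ p ∈ P, ∀ d ≤ n, LiftPI p d) (R : Type) [CommRing R]
    (hR : ∀ q : ℕ, q.Prime → q ∉ P → IsUnit (q : R)) (d : ℕ) (hd : d ≤ n) (W : List ℕ → R)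
    (hW : WS d W) : Indu d W :=
  bip h_tfl h_idl P hP hne d (fun p hp => (h_lfw p (hP p hp) n).2 (h p hp) d hd) R hR W hW

/-- over every field the algebra of chord diagrams is a polynomial algebra -/
theorem final3 (k : Type) [Field k] : IsPoly k := h_pol k (h_bsf k)

end Pool.Agent.H63.PK
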