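import Pool.Agent.H13.LN.Stmt

/-!
# Primitive weight systems and Lin's question (`MP_559314_gt`): the statement

Chord diagrams are words in which every letter occurs twice (`Gw d l`, `d` chords), the knots,
invariants and weight systems are those of `Pool.Agent.H13.LN.Stmt`.
-/

set_option autoImplicit false

open Finset

namespace Pool.Agent.H63.PK

open Pool.Agent.H59.LIN Pool.Agent.H13.LN

/-- Primitive weight systems of degree `d`: weight systems which vanish on the connected sums of two
nonempty chord diagrams. -/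
structure PWS {R : Type*} [AddCommGroup R] (d : ℕ) (W : List ℕ → R) : Prop where
  ws : WS d W
  prim : ∀ (a b : ℕ) (l m : List ℕ), 0 < a → 0 < b → Gw a l → Gw b m → Gw d (l ++ m) →
    W (l ++ m) = 0

/-- The relations between the chord diagrams with `d` chords, and the connected sums. -/
inductive RelP (d : ℕ) : (GW d →₀ ℤ) → Prop
  | rel (x : GW d →₀ ℤ) : Rel d x → RelP d x
  | prod (a b : ℕ) (l : GW a) (m : GW b) (n : GW d) : 0 < a → 0 < b → n.1 = l.1 ++ m.1 →
      RelP d (Finsupp.single n 1)

/-- The group of the indecomposables of degree `d`: the group of chord diagrams with `d` chords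
modulo the connected sums of two nonempty chord diagrams. -/
abbrev Ind (d : ℕ) : Type := (GW d →₀ ℤ) ⧸ AddSubgroup.closure {x : GW d →₀ ℤ | RelP d x}

/-- The relations of the algebra of chord diagrams: the linear relations, the product is the
connected sum, the empty diagram is `1`. -/
inductive ARel (R : Type) [CommRing R] : MvPolynomial (Σ d : ℕ, GW d) R → Prop
  | lin (d : ℕ) (x : GW d →₀ ℤ) : Rel d x →
      ARel R (x.sum fun l c => MvPolynomial.C (c : R) * MvPolynomial.X ⟨d, l⟩)
  | mul (a b d : ℕ) (l : GW a) (m : GW b) (n : GW d) : n.1 = l.1 ++ m.1 →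
      ARel R (MvPolynomial.X ⟨d, n⟩ - MvPolynomial.X ⟨a, l⟩ * MvPolynomial.X ⟨b, m⟩)
  | one (n : GW 0) : ARel R (MvPolynomial.X ⟨0, n⟩ - 1)

/-- The algebra `𝒜(S¹; R) / FI` of chord diagrams: the commutative `R`-algebra generated by the
chord diagrams with the relations `ARel`. -/
abbrev Alg (R : Type) [CommRing R] : Type :=
  MvPolynomial (Σ d : ℕ, GW d) R ⧸ Ideal.span {f : MvPolynomial (Σ d : ℕ, GW d) R | ARel R f}

/-- the class of a chord diagram -/
noncomputable def cls (R : Type) [CommRing R] {d : ℕ} (l : GW d) : Alg R :=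
  Ideal.Quotient.mk _ (MvPolynomial.X ⟨d, l⟩)

/-- the part of degree `d` of the algebra -/
noncomputable def Adeg (R : Type) [CommRing R] (d : ℕ) : Submodule R (Alg R) :=
  Submodule.span R (Set.range fun l : GW d => cls R l)

/-- `𝒜(S¹; R) / FI` is a polynomial algebra with homogeneous generators, `r d` of them in the
degree `d`. -/
def IsPoly (R : Type) [CommRing R] : Prop :=
  ∃ (r : ℕ → ℕ) (Φ : MvPolynomial (Σ d : ℕ, Fin (r d)) R ≃ₐ[R] Alg R),
    ∀ (d : ℕ) (i : Fin (r d)), Φ (MvPolynomial.X ⟨d, i⟩) ∈ Adeg R d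

/-- The Vassiliev invariant `v` of degree at most `d` induces `W`. -/
def Sm {R : Type*} [AddCommGroup R] (d : ℕ) (v : (n : ℕ) → Wd n → R) (W : List ℕ → R) : Prop :=
  KInv v ∧ FT v d ∧ ∀ (n : ℕ) (w : SWd n), Knot w → dbl w = d → ext (v n) [] w = W (gauss w)

/-- `W` is induced by a Vassiliev invariant of degree at most `d`. -/
def Indu {R : Type*} [AddCommGroup R] (d : ℕ) (W : List ℕ → R) : Prop :=
  ∃ v : (n : ℕ) → Wd n → R, Sm d v W

/-- `W` is the reduction of `W'`. -/
def Red (p d : ℕ) (W' : List ℕ → ℤ) (W : List ℕ → ZMod p) : Prop :=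
  ∀ l, Gw d l → ((W' l : ℤ) : ZMod p) = W l

/-- Every primitive weight system of degree `d` over `ℤ / p` is the reduction of a primitive weight
system over `ℤ`. -/
def LiftP (p d : ℕ) : Prop :=
  ∀ W : List ℕ → ZMod p, PWS d W → ∃ W' : List ℕ → ℤ, PWS d W' ∧ Red p d W' W

/-- Every primitive weight system of degree `d` over `ℤ / p` is the reduction of a primitive weight
system over `ℤ` which is induced by an integer valued Vassiliev invariant of degree at most `d`. -/
def LiftPI (p d : ℕ) : Prop :=
  ∀ W : List ℕ → ZMod p, PWS d W → ∃ W' : List ℕ → ℤ, PWS d W' ∧ Indu d W' ∧ Red p d W' W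

end Pool.Agent.H63.PK
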