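import Pool.Agent.H63.PK.Defs
import Pool.Agent.H59.LIN.Targets
import Pool.Agent.H13.LN.Targets

/-!
# Primitive weight systems and Lin's question (`MP_559314_gt`): targets of the rows

The proof is on the page `H63_PW.md` of the team store.
-/

set_option autoImplicit false

open Finset

namespace Pool.Agent.H63.PK

open Pool.Agent.H59.LIN Pool.Agent.H13.LN

/-! ### Part W: words -/

/-- (SLD) closed words may be moved. -/
def T_SLD : Prop :=
  ∀ (M : Type) [AddCommGroup M] (d : ℕ) (W : List ℕ → M), WS d W →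
    (∀ (u l v : List ℕ) (a : ℕ), Clo l → Gw d (u ++ a :: (l ++ v)) →
      W (u ++ a :: (l ++ v)) = W (u ++ (l ++ a :: v))) ∧
    (∀ u l m v : List ℕ, Clo l → Clo m → Gw d (u ++ (l ++ (m ++ v))) →
      W (u ++ (l ++ (m ++ v))) = W (u ++ (m ++ (l ++ v)))) ∧
    (∀ (u l v : List ℕ) (a : ℕ), Clo (a :: l) → Gw d (u ++ (a :: l ++ v)) →
      W (u ++ (a :: l ++ v)) = W (u ++ (l ++ [a] ++ v)))

/-- (ALG) the algebra of chord diagrams. -/
def T_ALG : Prop :=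
  ∀ (R : Type) [CommRing R],
    (∀ (A : Type) [CommRing A] [Algebra R A] (g : List ℕ → A), (∀ d, WS d g) → g [] = 1 →
      (∀ (a b d : ℕ) (l m : List ℕ), Gw a l → Gw b m → Gw d (l ++ m) →
        g (l ++ m) = g l * g m) →
      ∃ Ψ : Alg R →ₐ[R] A, ∀ (d : ℕ) (l : GW d), Ψ (cls R l) = g l.1) ∧
    (∀ (d : ℕ) (x : GW d →₀ ℤ), Rel d x → (x.sum fun l c => (c : R) • cls R l) = 0) ∧
    (∀ (a b d : ℕ) (l : GW a) (m : GW b) (n : GW d), n.1 = l.1 ++ m.1 →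
      cls R n = cls R l * cls R m) ∧
    (∀ n : GW 0, cls R n = 1) ∧
    (∀ (a b : ℕ) (x y : Alg R), x ∈ Adeg R a → y ∈ Adeg R b → x * y ∈ Adeg R (a + b)) ∧
    (∀ S : Submodule R (Alg R), (∀ d, Adeg R d ≤ S) → S = ⊤)

/-- (FUN) weight systems as linear forms on the algebra. -/
def T_FUN : Prop :=
  ∀ (R : Type) [CommRing R] (M : Type) [AddCommGroup M] [Module R M] (d : ℕ) (W : List ℕ → M),
    WS d W → ∃ F : Alg R →ₗ[R] M, ∀ (e : ℕ) (l : GW e), F (cls R l) = if e = d then W l.1 else 0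

/-! ### Part E: the exponential -/

/-- (ESA) the recursion. -/
def T_ESA : Prop :=
  ∀ (A : Type) [CommRing A] (h : Finset ℕ → A), Es h ∅ = 1 ∧
    ∀ T : Finset ℕ, ∀ a ∈ T,
      Es h T = ∑ J ∈ T.powerset.filter (fun J => a ∈ J), h J * Es h (T \ J)

/-- (ESB) first properties. -/
def T_ESB : Prop :=
  (∀ (A : Type) [CommRing A] (h h' : Finset ℕ → A) (T : Finset ℕ),
    (∀ J ⊆ T, J.Nonempty → h J = h' J) → Es h T = Es h' T) ∧
  (∀ (A : Type) [CommRing A] (h : Finset ℕ → A) (T : Finset ℕ) (f : ℕ → ℕ),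
    Set.InjOn f {a | a ∈ T} → Es h (T.image f) = Es (fun J => h (J.image f)) T) ∧
  (∀ (A B : Type) [CommRing A] [CommRing B] (φ : A →+* B) (h : Finset ℕ → A) (T : Finset ℕ),
    φ (Es h T) = Es (fun J => φ (h J)) T) ∧
  (∀ (A : Type) [CommRing A] (h : Finset ℕ → A) (T T' : Finset ℕ), Disjoint T T' →
    (∀ J ⊆ T ∪ T', (J ∩ T).Nonempty → (J ∩ T').Nonempty → h J = 0) →
    Es h (T ∪ T') = Es h T * Es h T')

/-- (ESC) further properties. -/
def T_ESC : Prop :=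
  (∀ (A : Type) [CommRing A] (I : Ideal A) (h : Finset ℕ → A) (T : Finset ℕ), T.Nonempty →
    (∀ J ⊆ T, J.Nonempty → h J ∈ I) → Es h T - h T ∈ I ^ 2) ∧
  (∀ (R A : Type) [CommRing R] [CommRing A] [Algebra R A] (S : Subalgebra R A)
    (h : Finset ℕ → A) (T : Finset ℕ), T.Nonempty → (∀ J ⊂ T, J.Nonempty → h J ∈ S) →
    Es h T - h T ∈ S) ∧
  (∀ (R A : Type) [CommRing R] [CommRing A] [Algebra R A] (D : Derivation R A A)
    (h : Finset ℕ → A) (T : Finset ℕ),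
    D (Es h T) = ∑ J ∈ T.powerset.filter (fun J => J.Nonempty), D (h J) * Es h (T \ J)) ∧
  (∀ (R σ : Type) [CommRing R] (w : σ → ℕ) (h : Finset ℕ → MvPolynomial σ R) (T : Finset ℕ),
    (∀ J ⊆ T, J.Nonempty → MvPolynomial.IsWeightedHomogeneous w (h J) J.card) →
    MvPolynomial.IsWeightedHomogeneous w (Es h T) T.card)

/-- (EXP) the exponential of weight systems. -/
def T_EXP : Prop :=
  ∀ (A : Type) [CommRing A] (g : List ℕ → A), (∀ d, WS d g) →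
    (∀ d, WS d (Ex g)) ∧ Ex g [] = 1 ∧
    ((∀ d, PWS d g) → ∀ (a b d : ℕ) (l m : List ℕ), Gw a l → Gw b m → Gw d (l ++ m) →
      Ex g (l ++ m) = Ex g l * Ex g m)

/-- (GXP) the generic combination of primitive weight systems. -/
def T_GXP : Prop :=
  ∀ (R : Type) [CommRing R] (r : ℕ → ℕ) (x : (d : ℕ) → Fin (r d) → List ℕ → R),
    (∀ d i, PWS d (x d i)) → ∀ d, PWS d (gx x)

/-- (EXH) homogeneity, and functoriality. -/
def T_EXH : Prop :=
  (∀ (R : Type) [CommRing R] (r : ℕ → ℕ) (x : (d : ℕ) → Fin (r d) → List ℕ → R) (d : ℕ)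
    (l : List ℕ), Gw d l → MvPolynomial.IsWeightedHomogeneous (wv r) (Ex (gx x) l) d) ∧
  (∀ (R S : Type) [CommRing R] [CommRing S] (φ : R →+* S) (r : ℕ → ℕ)
    (x : (d : ℕ) → Fin (r d) → List ℕ → R) (x' : (d : ℕ) → Fin (r d) → List ℕ → S),
    (∀ d i l, Gw d l → x' d i l = φ (x d i l)) → ∀ (d : ℕ) (l : List ℕ), Gw d l →
      Ex (gx x') l = MvPolynomial.map φ (Ex (gx x) l))

/-- (EXD) the derivatives. -/
def T_EXD : Prop :=
  ∀ (R : Type) [CommRing R] (r : ℕ → ℕ) (x : (d : ℕ) → Fin (r d) → List ℕ → R) (d : ℕ)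
    (l : List ℕ) (e : ℕ) (i : Fin (r e)) (β : (Σ d : ℕ, Fin (r d)) →₀ ℕ), 0 < e → Gw d l →
    ∑ J ∈ l.toFinset.powersetCard e,
      x e i (rs J l) * MvPolynomial.coeff β (Ex (gx x) (rs (l.toFinset \ J) l)) =
    ((β ⟨e, i⟩ : R) + 1) * MvPolynomial.coeff (β + Finsupp.single ⟨e, i⟩ 1) (Ex (gx x) l)

/-! ### Part S: the structure of the algebra -/

/-- (AUT) endomorphisms of polynomial rings. -/
def T_AUT : Prop :=
  ∀ (R σ : Type) [CommRing R] (w : σ → ℕ) (θ : MvPolynomial σ R →ₐ[R] MvPolynomial σ R),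
    (∀ j, θ (MvPolynomial.X j) - MvPolynomial.X j ∈
      (Ideal.span (Set.range MvPolynomial.X) : Ideal (MvPolynomial σ R)) ^ 2) →
    (∀ j, θ (MvPolynomial.X j) - MvPolynomial.X j ∈
      Algebra.adjoin R (MvPolynomial.X '' {i | w i < w j})) →
    Function.Bijective θ

/-- (THE) the endomorphism `Ψ Φ`. -/
def T_THE : Prop :=
  ∀ (R : Type) [CommRing R] (r : ℕ → ℕ) (x : (d : ℕ) → Fin (r d) → List ℕ → R)
    (y : (d : ℕ) → Fin (r d) → GW d →₀ R), Dat R r x y →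
    ∃ Ψ : Alg R →ₐ[R] MvPolynomial (Σ d : ℕ, Fin (r d)) R,
      (∀ (d : ℕ) (l : GW d), Ψ (cls R l) = Ex (gx x) l.1) ∧
      Function.Bijective (Ψ.comp (Ph R y))

/-- (ISO) the homomorphism `Φ`. -/
def T_ISO : Prop :=
  ∀ (R : Type) [CommRing R] (r : ℕ → ℕ) (x : (d : ℕ) → Fin (r d) → List ℕ → R)
    (y : (d : ℕ) → Fin (r d) → GW d →₀ R) (n : ℕ), Spn R r x y n →
    ∀ d ≤ n, ∀ z ∈ Adeg R d, ∃ f, Ph R y f = z

/-- (POL) polynomial algebras. -/
def T_POL : Prop :=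
  ∀ (R : Type) [CommRing R], (∀ d, ∃ (r : ℕ) (x : Fin r → List ℕ → R) (y : Fin r → GW d →₀ R),
    Bs R d r x y) → IsPoly R

/-- (LAM) every weight system is a combination of the coefficients of the exponential. -/
def T_LAM : Prop :=
  ∀ (R : Type) [CommRing R] (r : ℕ → ℕ) (x : (d : ℕ) → Fin (r d) → List ℕ → R)
    (y : (d : ℕ) → Fin (r d) → GW d →₀ R) (n : ℕ), Dat R r x y → Spn R r x y n →
    ∀ d ≤ n, ∀ W : List ℕ → R, WS d W →
      ∃ (S : Finset ((Σ d : ℕ, Fin (r d)) →₀ ℕ)) (c : ((Σ d : ℕ, Fin (r d)) →₀ ℕ) → R),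
        (∀ α ∈ S, Finsupp.weight (wv r) α = d) ∧
        ∀ l, Gw d l → W l = ∑ α ∈ S, c α * MvPolynomial.coeff α (Ex (gx x) l)

/-! ### Part G: groups -/

/-- (HMG) primitive weight systems are homomorphisms. -/
def T_HMG : Prop :=
  ∀ d : ℕ, AddGroup.FG (Ind d) ∧ ∀ (B : Type) [AddCommGroup B],
    (∀ W : List ℕ → B, PWS d W → ∃ φ : Ind d →+ B, ∀ l : GW d,
      φ (QuotientAddGroup.mk (Finsupp.single l 1)) = W l.1) ∧
    ∀ φ : Ind d →+ B, ∃ W : List ℕ → B, PWS d W ∧ ∀ l : GW d,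
      φ (QuotientAddGroup.mk (Finsupp.single l 1)) = W l.1

/-- (BSF) dual bases over fields. -/
def T_BSF : Prop :=
  ∀ (k : Type) [Field k] (d : ℕ), ∃ (r : ℕ) (x : Fin r → List ℕ → k) (y : Fin r → GW d →₀ k),
    Bs k d r x y

/-- (BSR) dual bases over rings in which the orders of the torsion elements are invertible. -/
def T_BSR : Prop :=
  ∀ (R : Type) [CommRing R] (d : ℕ),
    (∀ q : ℕ, q.Prime → IsUnit (q : R) ∨ ∀ z : Ind d, q • z = 0 → z = 0) →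
    ∃ (r : ℕ) (x : Fin r → List ℕ → R) (y : Fin r → GW d →₀ R), Bs R d r x y

/-- (TFL) torsion and lifting of homomorphisms. -/
def T_TFL : Prop :=
  ∀ (A : Type) [AddCommGroup A], AddGroup.FG A → ∀ p : ℕ, p.Prime →
    ((∀ x : A, p • x = 0 → x = 0) → ∀ f : A →+ ZMod p, ∃ g : A →+ ℤ, ∀ a,
      ((g a : ℤ) : ZMod p) = f a) ∧
    ∀ (B : Type) [AddCommGroup B] (π : B →+ ZMod p), (∀ b : B, p • b = 0 → b = 0) →
      (∀ f : A →+ ZMod p, ∃ g : A →+ B, ∀ a, π (g a) = f a) → ∀ x : A, p • x = 0 → x = 0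

/-- (LFW) lifting of all weight systems. -/
def T_LFW : Prop :=
  ∀ p : ℕ, p.Prime → ∀ n : ℕ,
    ((∀ d ≤ n, LiftP p d) → ∀ d ≤ n, LiftW p d) ∧
    ((∀ d ≤ n, LiftPI p d) → ∀ d ≤ n, LiftI p d)

/-- (TWB) from diagrams to indecomposables. -/
def T_TWB : Prop :=
  ∀ p : ℕ, p.Prime → ∀ n : ℕ, (∀ d < n, ∀ x : Ind d, p • x = 0 → x = 0) → LiftW p n →
    ∀ x : Ind n, p • x = 0 → x = 0

/-! ### Part T: invariants -/

/-- (SBW) the cube of the resolutions and the words with fewer double points. -/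
def T_SBW : Prop :=
  ∀ (n : ℕ) (w : SWd n) (d : ℕ) (t : Fin d → ℕ), Knot w → Function.Injective t → IsDb w t →
    ∀ (A : Finset (Fin d)) (ε : Fin d → Bool), ∃ w' : SWd n, Knot w' ∧ dbl w' = A.card ∧
      gauss w' = (gauss w).filter (fun k => decide (∃ a ∈ A, t a = k)) ∧
      ∀ (K : Type) [CommRing K] (v : Wd n → K), Dif A (cb v w t) ε = ext v [] w'

/-- (PRD) products of invariants. -/
def T_PRD : Prop :=
  ∀ (K : Type) [CommRing K] (a b : ℕ) (u v : (n : ℕ) → Wd n → K) (U V : List ℕ → K),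
    Sm a u U → Sm b v V → Sm (a + b) (fun n w => u n w * v n w)
      (fun l => ∑ J ∈ l.toFinset.powersetCard a, U (rs J l) * V (rs (l.toFinset \ J) l))

/-- (IDL) combinations of invariants. -/
def T_IDL : Prop :=
  ∀ (R : Type) [CommRing R] (d : ℕ) (ι : Type) (S : Finset ι) (W : ι → List ℕ → ℤ) (c : ι → R),
    (∀ i ∈ S, Indu d (W i)) → Indu d (fun l => ∑ i ∈ S, c i * ((W i l : ℤ) : R))

/-- (TOP) the coefficients of the exponential are induced. -/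
def T_TOP : Prop :=
  ∀ (r : ℕ → ℕ) (x : (d : ℕ) → Fin (r d) → List ℕ → ℤ), r 0 = 0 → (∀ d i, PWS d (x d i)) →
    (∀ d i, Indu d (x d i)) → ∀ α : (Σ d : ℕ, Fin (r d)) →₀ ℕ,
      Indu (Finsupp.weight (wv r) α) (fun l => MvPolynomial.coeff α (Ex (gx x) l))

/-- (BIG) from the prime fields to all rings. -/
def T_BIG : Prop :=
  ∀ d : ℕ, (∀ p : ℕ, p.Prime → LiftI p d) → ∀ (R : Type) [CommRing R] (W : List ℕ → R),
    WS d W → Indu d W

end Pool.Agent.H63.PK
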